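import Pool.Agent.Helper703.KL.Coef

set_option autoImplicit false

namespace Pool.Agent.Helper703.ST

open Pool.Agent.Helper703.KL

/-- `(a, b, c)` is a permutation of `(0, 1, 3)` -/
inductive Trip : Fin 5 → Fin 5 → Fin 5 → Prop
  | t1 : Trip 0 1 3
  | t2 : Trip 0 3 1
  | t3 : Trip 1 0 3
  | t4 : Trip 1 3 0
  | t5 : Trip 3 0 1
  | t6 : Trip 3 1 0

lemma Trip.rot {a b c : Fin 5} (h : Trip a b c) : Trip b c a := by cases h <;> constructor
lemma Trip.swap {a b c : Fin 5} (h : Trip a b c) : Trip b a c := by cases h <;> constructor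

variable {H : Type*} [Ring H] [Algebra A H]

/-- relations of the generators -/
structure D4 (d : A) (g : Fin 5 → H) : Prop where
  sq : ∀ i, g i * g i = d • g i
  comm : ∀ i j, i ≠ 2 → j ≠ 2 → g i * g j = g j * g i
  braid : ∀ i, i ≠ 2 → g 2 * g i * g 2 = g i * g 2 * g i - g i + g 2

variable (d : A) (g : Fin 5 → H)

noncomputable def v0 : H := g 0 * (g 1 * g 3)
noncomputable def v1 : H := g 2 * v0 g
noncomputable def Pe (i : Fin 5) : H := g i * v1 g - v0 g
noncomputable def Qe (i j : Fin 5) : H := g j * (g i * v1 g) - d • v0 g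
noncomputable def nn (i j : Fin 5) : H := g 2 * Qe d g i j - Pe g i - Pe g j
noncomputable def v0' : H := g 0 * (g 1 * (g 3 * v1 g)) - (d ^ 2 + 1) • v0 g
noncomputable def v1' : H := g 2 * v0' d g
noncomputable def rho : H := v1 g - (d ^ 2 + 1) • (1 : H)
noncomputable def nu (a b c : Fin 5) : H :=
  g 2 * (g a * nn d g b c) + nn d g a b + nn d g a c - nn d g b c
noncomputable def ee' (b c : Fin 5) : H :=
  (g 2 * (g b * (g c * g 2)) - d • g 2 - g b * g 2 - g c * g 2 + (2 : A) • 1) * (g b * g c)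

variable {d g}

namespace D4

section tails
variable (hD : D4 d g)
include hD

lemma sq' (i : Fin 5) (x : H) : g i * (g i * x) = d • (g i * x) := by
  rw [← mul_assoc, hD.sq, smul_mul_assoc]

lemma comm' (i j : Fin 5) (hi : i ≠ 2) (hj : j ≠ 2) (x : H) :
    g i * (g j * x) = g j * (g i * x) := by
  rw [← mul_assoc, hD.comm i j hi hj, mul_assoc]

lemma braid' (i : Fin 5) (hi : i ≠ 2) (x : H) :
    g 2 * (g i * (g 2 * x)) = g i * (g 2 * (g i * x)) - g i * x + g 2 * x := by
  rw [← mul_assoc, ← mul_assoc, hD.braid i hi]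
  simp only [add_mul, sub_mul, mul_assoc]

lemma v0_eq {a b c : Fin 5} (h : Trip a b c) : v0 g = g a * (g b * g c) := by
  unfold v0
  cases h
  · rfl
  · rw [hD.comm 1 3 (by decide) (by decide)]
  · rw [hD.comm' 0 1 (by decide) (by decide)]
  · rw [hD.comm' 0 1 (by decide) (by decide), hD.comm 0 3 (by decide) (by decide)]
  · rw [hD.comm 1 3 (by decide) (by decide), hD.comm' 0 3 (by decide) (by decide)]
  · rw [hD.comm 1 3 (by decide) (by decide), hD.comm' 0 3 (by decide) (by decide),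
      hD.comm 0 1 (by decide) (by decide)]

lemma g_v0 {a b c : Fin 5} (h : Trip a b c) : g a * v0 g = d • v0 g := by
  rw [hD.v0_eq h, hD.sq']

lemma v0_g {a b c : Fin 5} (h : Trip a b c) : v0 g * g a = d • v0 g := by
  rw [hD.v0_eq h.rot, mul_assoc, mul_assoc, hD.sq, mul_smul_comm, mul_smul_comm]

lemma g2_v1 : g 2 * v1 g = d • v1 g := by unfold v1; rw [hD.sq']

omit hD in
lemma v1'_def : g 2 * v0' d g = v1' d g := rfl

lemma g2_v1' : g 2 * v1' d g = d • v1' d g := by unfold v1'; rw [hD.sq']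

lemma g_P {a b c : Fin 5} (h : Trip a b c) : g a * Pe g a = d • Pe g a := by
  unfold Pe
  rw [mul_sub, hD.sq', hD.g_v0 h, smul_sub]

lemma g2_P {a b c : Fin 5} (h : Trip a b c) : g 2 * Pe g a = d • Pe g a := by
  have ha : a ≠ 2 := by cases h <;> decide
  unfold Pe v1
  rw [mul_sub, hD.braid' a ha, hD.g_v0 h]
  simp only [mul_smul_comm]
  module

lemma g_P' {a b c : Fin 5} (h : Trip a b c) : g b * Pe g a = Qe d g a b := by
  unfold Pe Qe
  rw [mul_sub, hD.g_v0 h.swap]

lemma Q_symm {a b c : Fin 5} (h : Trip a b c) : Qe d g a b = Qe d g b a := by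
  have ha : a ≠ 2 := by cases h <;> decide
  have hb : b ≠ 2 := by cases h <;> decide
  unfold Qe
  rw [hD.comm' b a hb ha]

lemma nn_symm {a b c : Fin 5} (h : Trip a b c) : nn d g a b = nn d g b a := by
  unfold nn
  rw [hD.Q_symm h]
  abel

lemma g_Q {a b c : Fin 5} (h : Trip a b c) : g b * Qe d g a b = d • Qe d g a b := by
  unfold Qe
  rw [mul_sub, hD.sq', mul_smul_comm, hD.g_v0 h.swap, smul_sub]

lemma g_Q2 {a b c : Fin 5} (h : Trip a b c) : g a * Qe d g a b = d • Qe d g a b := by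
  rw [hD.Q_symm h, hD.g_Q h.swap]

lemma abc_v1 {a b c : Fin 5} (h : Trip a b c) :
    g 0 * (g 1 * (g 3 * v1 g)) = g a * (g b * (g c * v1 g)) := by
  have h1 := hD.v0_eq h
  unfold v0 at h1
  calc g 0 * (g 1 * (g 3 * v1 g)) = (g 0 * (g 1 * g 3)) * v1 g := by simp only [mul_assoc]
    _ = _ := by rw [h1]; simp only [mul_assoc]

lemma g_Q' {a b c : Fin 5} (h : Trip a b c) : g c * Qe d g a b = v0' d g + v0 g := by
  unfold Qe v0'
  have h1 : Trip c b a := h.rot.swap
  rw [mul_sub, mul_smul_comm, hD.g_v0 h1, hD.abc_v1 h1]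
  module

omit hD in
lemma g2_Q {a b : Fin 5} : g 2 * Qe d g a b = Pe g a + Pe g b + nn d g a b := by
  unfold nn; abel

lemma g_v0' {a b c : Fin 5} (h : Trip a b c) : g a * v0' d g = d • v0' d g := by
  unfold v0'
  rw [hD.abc_v1 h, mul_sub, hD.sq', mul_smul_comm, hD.g_v0 h]
  module

lemma g_v1' {a b c : Fin 5} (h : Trip a b c) :
    g a * v1' d g = Pe g a + v0' d g + nu d g a b c := by
  have ha : a ≠ 2 := by cases h <;> decide
  -- two ways to compute `g 2 * (g a * (g 2 * Qe b c))`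
  have e1 : g 2 * (g a * (g 2 * Qe d g b c)) =
      g a * (v1' d g + v1 g) - (v0' d g + v0 g) + (Pe g b + Pe g c + nn d g b c) := by
    rw [hD.braid' a ha, hD.g_Q' h.rot, g2_Q, mul_add (g 2), v1'_def]
    rfl
  have e2 : g 2 * (g a * (g 2 * Qe d g b c)) =
      (Pe g a + Pe g b + nn d g a b) + (Pe g a + Pe g c + nn d g a c)
        + g 2 * (g a * nn d g b c) := by
    have h1 : Trip b a c := h.swap
    have h2 : Trip c a b := h.rot.rot
    have h3 : Trip a c b := h2.swap
    rw [g2_Q, mul_add, mul_add, mul_add, mul_add, hD.g_P' h1, hD.g_P' h2, g2_Q, g2_Q,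
      hD.nn_symm h1, hD.nn_symm h2]
    abel
  have e3 := e1.symm.trans e2
  have e4 : g a * v1 g = Pe g a + v0 g := by unfold Pe; abel
  rw [mul_add, e4] at e3
  unfold nu
  linear_combination (norm := module) e3

omit hD in
lemma v0_rho : v0 g * rho d g = v0' d g := by
  unfold rho v0'
  rw [mul_sub, mul_smul_comm, mul_one]
  congr 1
  show (g 0 * (g 1 * g 3)) * v1 g = _
  simp only [mul_assoc]

omit hD in
lemma v1_rho : v1 g * rho d g = v1' d g := by
  unfold v1
  rw [mul_assoc, v0_rho]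
  rfl

lemma P_rho {a b c : Fin 5} (h : Trip a b c) :
    Pe g a * rho d g = Pe g a + nu d g a b c := by
  unfold Pe
  rw [sub_mul, mul_assoc, v1_rho, v0_rho, hD.g_v1' h]
  unfold Pe
  abel

lemma Q_rho {a b c : Fin 5} (h : Trip a b c) :
    Qe d g a b * rho d g = Qe d g a b + g b * nu d g a b c := by
  rw [← hD.g_P' h, mul_assoc, hD.P_rho h, mul_add]

lemma v0'_rho {a b c : Fin 5} (h : Trip a b c) :
    v0' d g * rho d g = v0 g + g c * (g b * nu d g a b c) := by
  have h1 : v0' d g = g c * Qe d g a b - v0 g := by rw [hD.g_Q' h]; abel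
  rw [h1, sub_mul, mul_assoc, hD.Q_rho h, mul_add, hD.g_Q' h, v0_rho]
  abel

lemma v1'_rho {a b c : Fin 5} (h : Trip a b c) :
    v1' d g * rho d g = v1 g + g 2 * (g c * (g b * nu d g a b c)) := by
  unfold v1'
  rw [mul_assoc, hD.v0'_rho h, mul_add]
  rfl

lemma nn_rho {a b c : Fin 5} (h : Trip a b c) :
    nn d g a b * rho d g = nn d g a b + g 2 * (g b * nu d g a b c) - nu d g a b c
      - nu d g b a c := by
  unfold nn
  rw [sub_mul, sub_mul, mul_assoc, hD.Q_rho h, hD.P_rho h, hD.P_rho h.swap, mul_add]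
  abel

lemma nn_eq {a b c : Fin 5} (h : Trip a b c) : nn d g b c = ee' d g b c * g a := by
  have h1 : v0 g = g b * (g c * g a) := hD.v0_eq h.rot
  have hb : b ≠ 2 := by cases h <;> decide
  have hc : c ≠ 2 := by cases h <;> decide
  have ha : a ≠ 2 := by cases h <;> decide
  unfold nn Pe Qe ee' v1
  rw [h1]
  simp only [mul_add, mul_sub, add_mul, sub_mul, mul_smul_comm, smul_mul_assoc, mul_assoc,
    mul_one, one_mul, hD.comm' c b hc hb]
  module

lemma ee_b {a b c : Fin 5} (h : Trip a b c) : ee' d g b c * g b = d • ee' d g b c := by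
  have hb : b ≠ 2 := by cases h <;> decide
  have hc : c ≠ 2 := by cases h <;> decide
  unfold ee'
  rw [mul_assoc, mul_assoc, hD.comm c b hc hb, hD.sq', mul_smul_comm]

lemma ee_c {b c : Fin 5} : ee' d g b c * g c = d • ee' d g b c := by
  unfold ee'
  rw [mul_assoc, mul_assoc, hD.sq, mul_smul_comm, mul_smul_comm]

lemma braid2 (i : Fin 5) (hi : i ≠ 2) :
    g 2 * (g i * g 2) = g i * (g 2 * g i) - g i + g 2 := by
  have := hD.braid i hi
  simp only [mul_assoc] at this
  exact this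

lemma five {b c : Fin 5} (hb : b ≠ 2) (hc : c ≠ 2) (x : H) :
    g 2 * (g b * (g c * (g 2 * (g b * x)))) = g c * (g 2 * (g b * (g c * (g 2 * x))))
      + g 2 * (g b * (g c * x)) - g b * (g c * (g 2 * x)) + g b * (g 2 * (g b * x))
      - g c * (g 2 * (g c * x)) - g b * x + g c * x := by
  have e1 : g 2 * (g c * (g 2 * (g b * (g 2 * x)))) =
      g c * (g 2 * (g b * (g c * (g 2 * x)))) - g b * (g c * (g 2 * x))
        + (g b * (g 2 * (g b * x)) - g b * x + g 2 * x) := by
    rw [hD.braid' c hc, hD.comm' c b hc hb, hD.braid' b hb]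
  have e2 : g 2 * (g c * (g 2 * (g b * (g 2 * x)))) =
      g 2 * (g b * (g c * (g 2 * (g b * x)))) - g 2 * (g b * (g c * x))
        + (g c * (g 2 * (g c * x)) - g c * x + g 2 * x) := by
    rw [hD.braid' b hb, mul_add (g c), mul_sub (g c), hD.comm' c b hc hb, hD.comm' c b hc hb,
      mul_add (g 2), mul_sub (g 2), hD.braid' c hc]
  have e3 := e1.symm.trans e2
  linear_combination (norm := module) -e3

lemma ee_pal {b c : Fin 5} (hb : b ≠ 2) (hc : c ≠ 2) : ee' d g b c =
    g b * (g c * (g 2 * (g b * (g c * g 2)))) - d • (g b * (g c * g 2))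
      - g b * (g c * (g 2 * g b)) - g b * (g c * (g 2 * g c)) + (2 : A) • (g b * g c) := by
  have e1 := hD.five hb hc (g c)
  have e2 := hD.five hc hb (1 : H)
  have e3 := congrArg (fun x => g c * x) e2
  unfold ee'
  simp only [mul_add, mul_sub, add_mul, sub_mul, mul_smul_comm, smul_mul_assoc, mul_assoc,
    mul_one, one_mul, hD.comm c b hc hb, hD.comm' c b hc hb, hD.sq, hD.sq'] at e1 e3 ⊢
  linear_combination (norm := module) e1 + e3

lemma ee_2 {b c : Fin 5} (hb : b ≠ 2) (hc : c ≠ 2) : ee' d g b c * g 2 = d • ee' d g b c := by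
  rw [hD.ee_pal hb hc]
  simp only [mul_add, mul_sub, add_mul, sub_mul, mul_smul_comm, smul_mul_assoc, mul_assoc,
    hD.sq, hD.braid2 b hb, hD.braid2 c hc, hD.sq', hD.comm c b hc hb, hD.comm' c b hc hb]
  module

end tails

end D4

end Pool.Agent.Helper703.ST
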