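import Pool.Agent.Helper703.ST.Expand

set_option autoImplicit false

namespace Pool.Agent.Helper703.ST

open LaurentPolynomial Module Pool.Agent.Helper703.KL

variable {W : Type*} [Group W] {cs : CoxeterSystem affD W}
variable {H : Type*} [Ring H] [Algebra A H] {T : Basis W A H} {bar : H →+* H} {C : Basis W A H}

lemma TripI.all {a b c : Fin 5} (I : TripI a b c) :
    cI a a = -2 ∧ cI b b = -2 ∧ cI c c = -2 ∧ cI 2 2 = -2 ∧ cI a b = 0 ∧ cI b a = 0 ∧
    cI a c = 0 ∧ cI c a = 0 ∧ cI b c = 0 ∧ cI c b = 0 ∧ cI a 2 = 1 ∧ cI 2 a = 1 ∧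
    cI b 2 = 1 ∧ cI 2 b = 1 ∧ cI c 2 = 1 ∧ cI 2 c = 1 :=
  ⟨I.aa, I.bb, I.cc, I.zz, I.ab, I.ba, I.ac, I.ca, I.bc, I.cb, I.az, I.za, I.bz, I.zb, I.cz,
    I.zc⟩

variable (cs) in
/-- all steps of the path are ascents -/
def PosW : W → List (Fin 5) → Prop
  | _, [] => True
  | x, i :: ω => 0 < ht cs x i ∧ PosW (x * cs.simple i) ω

variable (cs) in
/-- end of the path -/
def pathEnd (x : W) (ω : List (Fin 5)) : W := ω.foldl (fun w i => w * cs.simple i) x

variable (cs T) in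
/-- product of normalised generators -/
noncomputable def tw (ω : List (Fin 5)) (h : H) : H := ω.foldr (fun i h => tt cs T i * h) h

lemma nb_path (hT : IsHecke cs T) (ω : List (Fin 5)) : ∀ (x : W), PosW cs x ω → ∀ y : H,
    nb cs T x * tw cs T ω y = nb cs T (pathEnd cs x ω) * y := by
  induction ω with
  | nil => intro x _ y; rfl
  | cons i ω ih =>
    intro x hx y
    show nb cs T x * (tt cs T i * tw cs T ω y) = nb cs T (pathEnd cs (x * cs.simple i) ω) * y
    rw [nb_tt' hT hx.1, ih _ hx.2]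

lemma len_path (ω : List (Fin 5)) : ∀ (x : W), PosW cs x ω →
    cs.length (pathEnd cs x ω) = cs.length x + ω.length := by
  induction ω with
  | nil => intro x _; rfl
  | cons i ω ih =>
    intro x hx
    show cs.length (pathEnd cs (x * cs.simple i) ω) = _
    rw [ih _ hx.2, len_pos hx.1, List.length_cons]
    omega

lemma PosW.append {ω ω' : List (Fin 5)} : ∀ {x : W}, PosW cs x (ω ++ ω') →
    PosW cs x ω ∧ PosW cs (pathEnd cs x ω) ω' := by
  induction ω with
  | nil => intro x h; exact ⟨trivial, h⟩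
  | cons i ω ih => intro x h; exact ⟨⟨h.1, (ih h.2).1⟩, (ih h.2).2⟩

/-- positivity on `J` from positivity of the path `[a, b, c]` -/
lemma pos_abc {a b c : Fin 5} (ht' : Trip a b c) {x : W} (h : PosW cs x [a, b, c]) :
    0 < ht cs x a ∧ 0 < ht cs x b ∧ 0 < ht cs x c := by
  have I := ht'.I
  obtain ⟨h1, h2, h3, _⟩ := h
  rw [ht_of_pos I.ba] at h2
  rw [ht_of_pos I.cb, ht_of_pos I.ca] at h3
  exact ⟨h1, h2, h3⟩

lemma tri_path (hT : IsHecke cs T) {a b c : Fin 5} (ht' : Trip a b c) (x : W) (ω : List (Fin 5))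
    (h : PosW cs x (ω ++ [a, b, c])) :
    Tri cs T (pathEnd cs x ω * wJ cs) (nb cs T x * tw cs T ω (v0 (gg cs T))) := by
  obtain ⟨h1, h2⟩ := h.append
  obtain ⟨h3, h4, h5⟩ := pos_abc ht' h2
  rw [nb_path hT ω x h1]
  exact tri_v0 hT ht' h3 h4 h5

lemma len_path_wJ {a b c : Fin 5} (ht' : Trip a b c) (x : W) (ω : List (Fin 5))
    (h : PosW cs x (ω ++ [a, b, c])) :
    cs.length (pathEnd cs x ω * wJ cs) = cs.length x + ω.length + 3 := by
  obtain ⟨h1, h2⟩ := h.append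
  obtain ⟨h3, h4, h5⟩ := pos_abc ht' h2
  rw [len_wJ ht' h3 h4 h5, len_path ω x h1]

lemma sm_path (hT : IsHecke cs T) {a b c : Fin 5} (ht' : Trip a b c) {x : W}
    (ω : List (Fin 5)) {p : A} (hp : Neg p) (h : PosW cs x (ω ++ [a, b, c])) {n : ℕ}
    (hn : cs.length x + ω.length + 3 < n) :
    Sm cs T n (p • (nb cs T x * tw cs T ω (v0 (gg cs T)))) :=
  (tri_path hT ht' x ω h).smul_sm hp (by rw [len_path_wJ ht' x ω h]; exact hn)

/-- positive on `K` -/
structure PosK (cs : CoxeterSystem affD W) (x : W) (a b c : Fin 5) : Prop where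
  a : 0 < ht cs x a
  b : 0 < ht cs x b
  c : 0 < ht cs x c
  z : 0 < ht cs x 2

lemma nn1 : Neg (v (-1)) := neg_v (by norm_num)
lemma nn2 : Neg (v (-2)) := neg_v (by norm_num)
lemma nn3 : Neg (v (-3)) := neg_v (by norm_num)
lemma nn4 : Neg (v (-4)) := neg_v (by norm_num)
lemma nn5 : Neg (v (-5)) := neg_v (by norm_num)

section triang
variable (hT : IsHecke cs T) {a b c : Fin 5} (ht' : Trip a b c) {x : W} (hx : PosK cs x a b c)
include hT ht' hx

lemma triA : Tri cs T (x * wJ cs) (nb cs T x * v0 (gg cs T)) := by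
  have J := ht'.I.all
  obtain ⟨p1, p2, p3, p4⟩ := hx
  exact tri_path hT ht' x [] (by refine ⟨?_, ?_, ?_, ?_⟩ <;> first | trivial | (simp only [ht_mul, J]; push_cast; linarith))

lemma triB : Tri cs T (x * cs.simple 2 * wJ cs) (nb cs T x * v1 (gg cs T)) := by
  have J := ht'.I.all
  obtain ⟨p1, p2, p3, p4⟩ := hx
  have h0 : PosW cs x [2, a, b, c] := by
    refine ⟨?_, ?_, ?_, ?_, ?_⟩ <;> first | trivial | (simp only [ht_mul, J]; push_cast; linarith)
  have hl := len_path_wJ ht' x [2] h0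
  rw [ex1, mul_add, mul_smul_comm]
  refine (tri_path hT ht' x [2] h0).add_sm ?_
  rw [hl]
  refine sm_path hT ht' [] nn1 ?_ (by simp)
  refine ⟨?_, ?_, ?_, ?_⟩ <;> first | trivial | (simp only [ht_mul, J]; push_cast; linarith)

lemma triC : Tri cs T (x * cs.simple a * cs.simple 2 * wJ cs) (nb cs T x * Pe (gg cs T) a) := by
  have J := ht'.I.all
  obtain ⟨p1, p2, p3, p4⟩ := hx
  have h0 : PosW cs x [a, 2, a, b, c] := by
    refine ⟨?_, ?_, ?_, ?_, ?_, ?_⟩ <;> first | trivial | (simp only [ht_mul, J]; push_cast; linarith)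
  have hl := len_path_wJ ht' x [a, 2] h0
  rw [ex2 hT ht', mul_add, mul_add, mul_smul_comm, mul_smul_comm, add_assoc]
  refine (tri_path hT ht' x [a, 2] h0).add_sm ?_
  rw [hl]
  refine Sm.add ?_ ?_
  · refine sm_path hT ht' [2] nn1 ?_ (by simp)
    refine ⟨?_, ?_, ?_, ?_, ?_⟩ <;> first | trivial | (simp only [ht_mul, J]; push_cast; linarith)
  · refine sm_path hT ht' [] nn2 ?_ (by simp)
    refine ⟨?_, ?_, ?_, ?_⟩ <;> first | trivial | (simp only [ht_mul, J]; push_cast; linarith)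

lemma triD : Tri cs T (x * cs.simple b * cs.simple a * cs.simple 2 * wJ cs)
    (nb cs T x * Qe dd (gg cs T) a b) := by
  have J := ht'.I.all
  obtain ⟨p1, p2, p3, p4⟩ := hx
  have h0 : PosW cs x [b, a, 2, a, b, c] := by
    refine ⟨?_, ?_, ?_, ?_, ?_, ?_, ?_⟩ <;> first | trivial | (simp only [ht_mul, J]; push_cast; linarith)
  have hl := len_path_wJ ht' x [b, a, 2] h0
  rw [ex3 hT ht']
  simp only [mul_add, mul_smul_comm, add_assoc]
  refine (tri_path hT ht' x [b, a, 2] h0).add_sm ?_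
  rw [hl]
  refine Sm.add ?_ (Sm.add ?_ (Sm.add ?_ ?_))
  · refine sm_path hT ht' [a, 2] nn1 ?_ (by simp)
    refine ⟨?_, ?_, ?_, ?_, ?_, ?_⟩ <;> first | trivial | (simp only [ht_mul, J]; push_cast; linarith)
  · refine sm_path hT ht' [b, 2] nn1 ?_ (by simp)
    refine ⟨?_, ?_, ?_, ?_, ?_, ?_⟩ <;> first | trivial | (simp only [ht_mul, J]; push_cast; linarith)
  · refine sm_path hT ht' [2] nn2 ?_ (by simp)
    refine ⟨?_, ?_, ?_, ?_, ?_⟩ <;> first | trivial | (simp only [ht_mul, J]; push_cast; linarith)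
  · refine sm_path hT ht' [] (nn1.add nn3) ?_ (by simp)
    refine ⟨?_, ?_, ?_, ?_⟩ <;> first | trivial | (simp only [ht_mul, J]; push_cast; linarith)

lemma triE : Tri cs T (x * cs.simple c * cs.simple b * cs.simple a * cs.simple 2 * wJ cs)
    (nb cs T x * v0' dd (gg cs T)) := by
  have J := ht'.I.all
  obtain ⟨p1, p2, p3, p4⟩ := hx
  have h0 : PosW cs x [c, b, a, 2, a, b, c] := by
    refine ⟨?_, ?_, ?_, ?_, ?_, ?_, ?_, ?_⟩ <;> first | trivial | (simp only [ht_mul, J]; push_cast; linarith)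
  have hl := len_path_wJ ht' x [c, b, a, 2] h0
  rw [ex4 hT ht']
  have n2 : KL.Neg (2 * v (-2) + v (-4)) := by
    rw [two_mul]; exact (nn2.add nn2).add nn4
  simp only [mul_add, mul_smul_comm, add_assoc] at n2 ⊢
  refine (tri_path hT ht' x [c, b, a, 2] h0).add_sm ?_
  rw [hl]
  refine Sm.add ?_ (Sm.add ?_ (Sm.add ?_ (Sm.add ?_ (Sm.add ?_ (Sm.add ?_ (Sm.add ?_ ?_))))))
  · refine sm_path hT ht' [b, a, 2] nn1 ?_ (by simp)
    refine ⟨?_, ?_, ?_, ?_, ?_, ?_, ?_⟩ <;> first | trivial | (simp only [ht_mul, J]; push_cast; linarith)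
  · refine sm_path hT ht' [c, a, 2] nn1 ?_ (by simp)
    refine ⟨?_, ?_, ?_, ?_, ?_, ?_, ?_⟩ <;> first | trivial | (simp only [ht_mul, J]; push_cast; linarith)
  · refine sm_path hT ht' [c, b, 2] nn1 ?_ (by simp)
    refine ⟨?_, ?_, ?_, ?_, ?_, ?_, ?_⟩ <;> first | trivial | (simp only [ht_mul, J]; push_cast; linarith)
  · refine sm_path hT ht' [a, 2] nn2 ?_ (by simp)
    refine ⟨?_, ?_, ?_, ?_, ?_, ?_⟩ <;> first | trivial | (simp only [ht_mul, J]; push_cast; linarith)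
  · refine sm_path hT ht' [b, 2] nn2 ?_ (by simp)
    refine ⟨?_, ?_, ?_, ?_, ?_, ?_⟩ <;> first | trivial | (simp only [ht_mul, J]; push_cast; linarith)
  · refine sm_path hT ht' [c, 2] nn2 ?_ (by simp)
    refine ⟨?_, ?_, ?_, ?_, ?_, ?_⟩ <;> first | trivial | (simp only [ht_mul, J]; push_cast; linarith)
  · refine sm_path hT ht' [2] nn3 ?_ (by simp)
    refine ⟨?_, ?_, ?_, ?_, ?_⟩ <;> first | trivial | (simp only [ht_mul, J]; push_cast; linarith)
  · refine sm_path hT ht' [] n2 ?_ (by simp)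
    refine ⟨?_, ?_, ?_, ?_⟩ <;> first | trivial | (simp only [ht_mul, J]; push_cast; linarith)

lemma triF : Tri cs T
    (x * cs.simple 2 * cs.simple c * cs.simple b * cs.simple a * cs.simple 2 * wJ cs)
    (nb cs T x * v1' dd (gg cs T)) := by
  have J := ht'.I.all
  obtain ⟨p1, p2, p3, p4⟩ := hx
  have h0 : PosW cs x [2, c, b, a, 2, a, b, c] := by
    refine ⟨?_, ?_, ?_, ?_, ?_, ?_, ?_, ?_, ?_⟩ <;> first | trivial | (simp only [ht_mul, J]; push_cast; linarith)
  have hl := len_path_wJ ht' x [2, c, b, a, 2] h0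
  rw [ex5 hT ht']
  have n2 : KL.Neg (3 * v (-2) + v (-4)) := by
    have : (3 : A) * v (-2) = v (-2) + v (-2) + v (-2) := by ring
    rw [this]; exact ((nn2.add nn2).add nn2).add nn4
  have n3 : KL.Neg (3 * v (-3) + v (-5)) := by
    have : (3 : A) * v (-3) = v (-3) + v (-3) + v (-3) := by ring
    rw [this]; exact ((nn3.add nn3).add nn3).add nn5
  simp only [mul_add, mul_smul_comm, add_assoc] at n2 n3 ⊢
  refine (tri_path hT ht' x [2, c, b, a, 2] h0).add_sm ?_
  rw [hl]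
  refine Sm.add ?_ (Sm.add ?_ (Sm.add ?_ (Sm.add ?_ (Sm.add ?_ (Sm.add ?_ (Sm.add ?_ (Sm.add ?_
    (Sm.add ?_ (Sm.add ?_ (Sm.add ?_ ?_))))))))))
  · refine sm_path hT ht' [c, b, a, 2] nn1 ?_ (by simp)
    refine ⟨?_, ?_, ?_, ?_, ?_, ?_, ?_, ?_⟩ <;> first | trivial | (simp only [ht_mul, J]; push_cast; linarith)
  · refine sm_path hT ht' [2, b, a, 2] nn1 ?_ (by simp)
    refine ⟨?_, ?_, ?_, ?_, ?_, ?_, ?_, ?_⟩ <;> first | trivial | (simp only [ht_mul, J]; push_cast; linarith)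
  · refine sm_path hT ht' [2, c, a, 2] nn1 ?_ (by simp)
    refine ⟨?_, ?_, ?_, ?_, ?_, ?_, ?_, ?_⟩ <;> first | trivial | (simp only [ht_mul, J]; push_cast; linarith)
  · refine sm_path hT ht' [2, c, b, 2] nn1 ?_ (by simp)
    refine ⟨?_, ?_, ?_, ?_, ?_, ?_, ?_, ?_⟩ <;> first | trivial | (simp only [ht_mul, J]; push_cast; linarith)
  · refine sm_path hT ht' [b, a, 2] nn2 ?_ (by simp)
    refine ⟨?_, ?_, ?_, ?_, ?_, ?_, ?_⟩ <;> first | trivial | (simp only [ht_mul, J]; push_cast; linarith)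
  · refine sm_path hT ht' [c, a, 2] nn2 ?_ (by simp)
    refine ⟨?_, ?_, ?_, ?_, ?_, ?_, ?_⟩ <;> first | trivial | (simp only [ht_mul, J]; push_cast; linarith)
  · refine sm_path hT ht' [c, b, 2] nn2 ?_ (by simp)
    refine ⟨?_, ?_, ?_, ?_, ?_, ?_, ?_⟩ <;> first | trivial | (simp only [ht_mul, J]; push_cast; linarith)
  · refine sm_path hT ht' [a, 2] (nn1.add nn3) ?_ (by simp)
    refine ⟨?_, ?_, ?_, ?_, ?_, ?_⟩ <;> first | trivial | (simp only [ht_mul, J]; push_cast; linarith)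
  · refine sm_path hT ht' [b, 2] (nn1.add nn3) ?_ (by simp)
    refine ⟨?_, ?_, ?_, ?_, ?_, ?_⟩ <;> first | trivial | (simp only [ht_mul, J]; push_cast; linarith)
  · refine sm_path hT ht' [c, 2] (nn1.add nn3) ?_ (by simp)
    refine ⟨?_, ?_, ?_, ?_, ?_, ?_⟩ <;> first | trivial | (simp only [ht_mul, J]; push_cast; linarith)
  · refine sm_path hT ht' [2] n2 ?_ (by simp)
    refine ⟨?_, ?_, ?_, ?_, ?_⟩ <;> first | trivial | (simp only [ht_mul, J]; push_cast; linarith)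
  · refine sm_path hT ht' [] n3 ?_ (by simp)
    refine ⟨?_, ?_, ?_, ?_⟩ <;> first | trivial | (simp only [ht_mul, J]; push_cast; linarith)

end triang

end Pool.Agent.Helper703.ST
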