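import Pool.Agent.Helper703.ST.Claim

set_option autoImplicit false

namespace Pool.Agent.Helper703.ST

open LaurentPolynomial Module Pool.Agent.Helper703.KL

section alg
variable {H : Type*} [Ring H] [Algebra A H] {d : A} {g : Fin 5 → H}

/-- right eigenvector for the generators in `J` -/
def REig (d : A) (g : Fin 5 → H) (h : H) : Prop :=
  h * g 0 = d • h ∧ h * g 1 = d • h ∧ h * g 3 = d • h

lemma REig.mul {h : H} (a : H) (hh : REig d g h) : REig d g (a * h) := by
  obtain ⟨h1, h2, h3⟩ := hh
  refine ⟨?_, ?_, ?_⟩ <;> rw [mul_assoc]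
  · rw [h1, mul_smul_comm]
  · rw [h2, mul_smul_comm]
  · rw [h3, mul_smul_comm]

lemma REig.sub {h h' : H} (a : REig d g h) (b : REig d g h') : REig d g (h - h') := by
  obtain ⟨h1, h2, h3⟩ := a
  obtain ⟨k1, k2, k3⟩ := b
  refine ⟨?_, ?_, ?_⟩ <;> rw [sub_mul, smul_sub]
  · rw [h1, k1]
  · rw [h2, k2]
  · rw [h3, k3]

lemma REig.smul {h : H} (a : A) (hh : REig d g h) : REig d g (a • h) := by
  obtain ⟨h1, h2, h3⟩ := hh
  refine ⟨?_, ?_, ?_⟩ <;> rw [smul_mul_assoc, smul_comm]
  · rw [h1]
  · rw [h2]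
  · rw [h3]

lemma REig.v0 (hD : D4 d g) : REig d g (v0 g) :=
  ⟨hD.v0_g Trip.t1, hD.v0_g Trip.t3, hD.v0_g Trip.t5⟩

lemma REig.v1 (hD : D4 d g) : REig d g (v1 g) := (REig.v0 hD).mul _

lemma REig.Pe (hD : D4 d g) (i : Fin 5) : REig d g (Pe g i) :=
  ((REig.v1 hD).mul _).sub (REig.v0 hD)

lemma REig.Qe (hD : D4 d g) (i j : Fin 5) : REig d g (Qe d g i j) :=
  (((REig.v1 hD).mul _).mul _).sub ((REig.v0 hD).smul _)

lemma REig.v0' (hD : D4 d g) : REig d g (v0' d g) :=
  ((((REig.v1 hD).mul _).mul _).mul _).sub ((REig.v0 hD).smul _)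

lemma REig.v1' (hD : D4 d g) : REig d g (v1' d g) := (REig.v0' hD).mul _

end alg

variable {W : Type*} [Group W] {cs : CoxeterSystem affD W}
variable {H : Type*} [Ring H] [Algebra A H] {T : Basis W A H} {bar : H →+* H} {C : Basis W A H}

variable (cs T) in
/-- the correspondence on elements that are not lower -/
inductive NL : W → W → H → H → Prop
  | a {x : W} {a b c : Fin 5} (t : Trip a b c) (hx : PosK cs x a b c) :
      NL (x * wJ cs) (x * cs.simple c * cs.simple b * cs.simple a * cs.simple 2 * wJ cs)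
        (nb cs T x * v0 (gg cs T)) (nb cs T x * v0' dd (gg cs T))
  | e {x : W} {a b c : Fin 5} (t : Trip a b c) (hx : PosK cs x a b c) :
      NL (x * cs.simple c * cs.simple b * cs.simple a * cs.simple 2 * wJ cs) (x * wJ cs)
        (nb cs T x * v0' dd (gg cs T)) (nb cs T x * v0 (gg cs T))
  | b {x : W} {a b c : Fin 5} (t : Trip a b c) (hx : PosK cs x a b c) :
      NL (x * cs.simple 2 * wJ cs)
        (x * cs.simple 2 * cs.simple c * cs.simple b * cs.simple a * cs.simple 2 * wJ cs)
        (nb cs T x * v1 (gg cs T)) (nb cs T x * v1' dd (gg cs T))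
  | f {x : W} {a b c : Fin 5} (t : Trip a b c) (hx : PosK cs x a b c) :
      NL (x * cs.simple 2 * cs.simple c * cs.simple b * cs.simple a * cs.simple 2 * wJ cs)
        (x * cs.simple 2 * wJ cs)
        (nb cs T x * v1' dd (gg cs T)) (nb cs T x * v1 (gg cs T))
  | c {x : W} {a b c : Fin 5} (t : Trip a b c) (hx : PosK cs x a b c) :
      NL (x * cs.simple a * cs.simple 2 * wJ cs) (x * cs.simple a * cs.simple 2 * wJ cs)
        (nb cs T x * Pe (gg cs T) a) (nb cs T x * Pe (gg cs T) a)
  | d {x : W} {a b c : Fin 5} (t : Trip a b c) (hx : PosK cs x a b c) :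
      NL (x * cs.simple b * cs.simple a * cs.simple 2 * wJ cs)
        (x * cs.simple b * cs.simple a * cs.simple 2 * wJ cs)
        (nb cs T x * Qe dd (gg cs T) a b) (nb cs T x * Qe dd (gg cs T) a b)

lemma NL.symm {z z' : W} {X X' : H} (h : NL cs T z z' X X') : NL cs T z' z X' X := by
  cases h with
  | a t hx => exact NL.e t hx
  | e t hx => exact NL.a t hx
  | b t hx => exact NL.f t hx
  | f t hx => exact NL.b t hx
  | c t hx => exact NL.c t hx
  | d t hx => exact NL.d t hx

lemma NL.tri (hT : IsHecke cs T) {z z' : W} {X X' : H} (h : NL cs T z z' X X') :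
    Tri cs T z X := by
  cases h with
  | a t hx => exact triA hT t hx
  | e t hx => exact triE hT t hx
  | b t hx => exact triB hT t hx
  | f t hx => exact triF hT t hx
  | c t hx => exact triC hT t hx
  | d t hx => exact triD hT t hx

lemma NL.eig (hT : IsHecke cs T) {z z' : W} {X X' : H} (h : NL cs T z z' X X') :
    REig dd (gg cs T) X := by
  have hD := hD4 hT
  cases h with
  | a t hx => exact (REig.v0 hD).mul _
  | e t hx => exact (REig.v0' hD).mul _
  | b t hx => exact (REig.v1 hD).mul _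
  | f t hx => exact (REig.v1' hD).mul _
  | c t hx => exact (REig.Pe hD _).mul _
  | d t hx => exact (REig.Qe hD _ _).mul _

lemma notLow_of {a b c : Fin 5} (t : Trip a b c) {z : W} (h2 : 0 < ht cs z 2)
    (ha : 0 < ht cs z 2 + ht cs z a) (hb : 0 < ht cs z 2 + ht cs z b)
    (hc : 0 < ht cs z 2 + ht cs z c) : ¬ Low cs z := by
  rintro ⟨_, h | ⟨a', b', c', t', h⟩⟩
  · linarith
  · cases t <;> cases t' <;> linarith

lemma NL.nonLow {z z' : W} {X X' : H} (h : NL cs T z z' X X') :
    InJ cs z ∧ ¬ Low cs z := by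
  have key : ∀ {z : W} {a b c : Fin 5}, Trip a b c → ht cs z a < 0 → ht cs z b < 0 →
      ht cs z c < 0 → 0 < ht cs z 2 → 0 < ht cs z 2 + ht cs z a → 0 < ht cs z 2 + ht cs z b →
      0 < ht cs z 2 + ht cs z c → InJ cs z ∧ ¬ Low cs z := by
    intro z a b c t h1 h2 h3 h4 h5 h6 h7
    exact ⟨InJ.of t ⟨h1, h2, h3⟩, notLow_of t h4 h5 h6 h7⟩
  cases h with
  | a t hx =>
    have J := t.I.all
    obtain ⟨p1, p2, p3, p4⟩ := hx
    apply key t <;> simp only [wJ_eq t, ← mul_assoc, ht_mul, J] <;> push_cast <;> linarith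
  | e t hx =>
    have J := t.I.all
    obtain ⟨p1, p2, p3, p4⟩ := hx
    apply key t <;> simp only [wJ_eq t, ← mul_assoc, ht_mul, J] <;> push_cast <;> linarith
  | b t hx =>
    have J := t.I.all
    obtain ⟨p1, p2, p3, p4⟩ := hx
    apply key t <;> simp only [wJ_eq t, ← mul_assoc, ht_mul, J] <;> push_cast <;> linarith
  | f t hx =>
    have J := t.I.all
    obtain ⟨p1, p2, p3, p4⟩ := hx
    apply key t <;> simp only [wJ_eq t, ← mul_assoc, ht_mul, J] <;> push_cast <;> linarith
  | c t hx =>
    have J := t.I.all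
    obtain ⟨p1, p2, p3, p4⟩ := hx
    apply key t <;> simp only [wJ_eq t, ← mul_assoc, ht_mul, J] <;> push_cast <;> linarith
  | d t hx =>
    have J := t.I.all
    obtain ⟨p1, p2, p3, p4⟩ := hx
    apply key t <;> simp only [wJ_eq t, ← mul_assoc, ht_mul, J] <;> push_cast <;> linarith

lemma NL.rho (hT : IsHecke cs T) (hb : IsBar cs T bar) (hC : IsKLBasis cs T bar C)
    {z z' : W} {X X' : H} (h : NL cs T z z' X X') :
    X * rho dd (gg cs T) - X' ∈ InLow cs C := by
  have hD := hD4 hT
  have N : ∀ {a b c : Fin 5}, Trip a b c → nu dd (gg cs T) a b c ∈ InLow cs C :=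
    fun t => nu_mem hT hb hC t
  have L : ∀ (g : H) {h : H}, h ∈ InLow cs C → g * h ∈ InLow cs C := fun g {h} hh =>
    mul_mem hT hb hC g hh
  cases h with
  | a t hx =>
    rw [mul_assoc, D4.v0_rho, sub_self]
    exact Submodule.zero_mem _
  | e t hx =>
    rw [mul_assoc, hD.v0'_rho t, mul_add, add_sub_cancel_left]
    exact L _ (L _ (L _ (N t)))
  | b t hx =>
    rw [mul_assoc, D4.v1_rho, sub_self]
    exact Submodule.zero_mem _
  | f t hx =>
    rw [mul_assoc, hD.v1'_rho t, mul_add, add_sub_cancel_left]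
    exact L _ (L _ (L _ (L _ (N t))))
  | c t hx =>
    rw [mul_assoc, hD.P_rho t, mul_add, add_sub_cancel_left]
    exact L _ (N t)
  | d t hx =>
    rw [mul_assoc, hD.Q_rho t, mul_add, add_sub_cancel_left]
    exact L _ (L _ (N t))

lemma wJ_mul_wJ : wJ cs * wJ cs = 1 := by
  have h1 : wJ cs = cs.simple 3 * cs.simple 1 * cs.simple 0 := wJ_eq Trip.t6
  show wJ cs * (cs.simple 0 * cs.simple 1 * cs.simple 3) = 1
  rw [h1]
  simp only [mul_assoc, cs.simple_mul_simple_cancel_left, cs.simple_mul_simple_self]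

lemma pos_of_not {x : W} {i : Fin 5} (h : ¬ ht cs x i < 0) : 0 < ht cs x i :=
  lt_of_le_of_ne (not_lt.1 h) (ht_ne_zero x i).symm

/-- classification of the elements that are not lower -/
lemma exists_NL {z : W} (hJ : InJ cs z) (hz : ¬ Low cs z) :
    ∃ z' X X', NL cs T z z' X X' := by
  have hi : ∀ {a b c : Fin 5}, Trip a b c → 0 < ht cs z 2 + ht cs z a := by
    intro a b c t
    have J := t.I.all
    have h1 : ht cs z 2 + ht cs z a = ht cs (z * cs.simple a) 2 := by
      simp only [ht_mul, J]; push_cast; ring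
    by_contra hcon
    apply hz
    apply Low.of hJ t
    rw [h1] at hcon ⊢
    exact lt_of_le_of_ne (not_lt.1 hcon) (ht_ne_zero _ _)
  have h2 : 0 < ht cs z 2 := by
    apply pos_of_not
    intro h
    exact hz (Low.of2 hJ h)
  have J0 := Trip.t1.I.all
  have hz1 : z = z * wJ cs * wJ cs := by rw [mul_assoc, wJ_mul_wJ, mul_one]
  have k0 := hi Trip.t1
  have k1 := hi Trip.t3
  have k3 := hi Trip.t5
  obtain ⟨j0, j1, j3⟩ := hJ
  have hp : ∀ {a b c : Fin 5}, Trip a b c → 0 < ht cs z 2 + ht cs z a + ht cs z b ∨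
      ht cs z 2 + ht cs z a + ht cs z b < 0 := by
    intro a b c t
    have J := t.I.all
    have h1 : ht cs z 2 + ht cs z a + ht cs z b = ht cs (z * cs.simple a * cs.simple b) 2 := by
      simp only [ht_mul, J]; push_cast; ring
    rw [h1]
    exact (lt_or_gt_of_ne (ht_ne_zero _ _)).symm
  -- case of one negative pair
  have caseC : ∀ {a b c : Fin 5}, Trip a b c →
      ht cs z 2 + ht cs z a + ht cs z b + ht cs z c < 0 →
      ht cs z 2 + ht cs z b + ht cs z c < 0 → 0 < ht cs z 2 + ht cs z a + ht cs z b →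
      0 < ht cs z 2 + ht cs z a + ht cs z c → ht cs z a < 0 →
      ∃ z' X X', NL cs T z z' X X' := by
    intro a b c t q1 q2 q3 q4 q5
    have J := t.I.all
    have hx : PosK cs (z * wJ cs * cs.simple 2 * cs.simple a) a b c := by
      constructor <;> simp only [wJ_eq t, ← mul_assoc, ht_mul, J] <;> push_cast <;> linarith
    have hn := NL.c (T := T) t hx
    have e : z * wJ cs * cs.simple 2 * cs.simple a * cs.simple a * cs.simple 2 * wJ cs = z := by
      rw [cs.simple_mul_simple_cancel_right, cs.simple_mul_simple_cancel_right, ← hz1]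
    rw [e] at hn
    exact ⟨_, _, _, hn⟩
  have caseD : ∀ {a b c : Fin 5}, Trip a b c →
      ht cs z 2 + ht cs z a + ht cs z b + ht cs z c < 0 →
      ht cs z 2 + ht cs z b + ht cs z c < 0 → ht cs z 2 + ht cs z a + ht cs z c < 0 →
      0 < ht cs z 2 + ht cs z a + ht cs z b → ∃ z' X X', NL cs T z z' X X' := by
    intro a b c t q1 q2 q3 q4
    have J := t.I.all
    have q5 := hi t.rot.rot
    have hx : PosK cs (z * wJ cs * cs.simple 2 * cs.simple a * cs.simple b) a b c := by
      constructor <;> simp only [wJ_eq t, ← mul_assoc, ht_mul, J] <;> push_cast <;> linarith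
    have hn := NL.d (T := T) t hx
    have e : z * wJ cs * cs.simple 2 * cs.simple a * cs.simple b * cs.simple b * cs.simple a *
        cs.simple 2 * wJ cs = z := by
      rw [cs.simple_mul_simple_cancel_right, cs.simple_mul_simple_cancel_right,
        cs.simple_mul_simple_cancel_right, ← hz1]
    rw [e] at hn
    exact ⟨_, _, _, hn⟩
  have hs : 0 < ht cs z 2 + ht cs z 0 + ht cs z 1 + ht cs z 3 ∨
      ht cs z 2 + ht cs z 0 + ht cs z 1 + ht cs z 3 < 0 := by
    have h1 : ht cs z 2 + ht cs z 0 + ht cs z 1 + ht cs z 3 = ht cs (z * wJ cs) 2 := by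
      simp only [wJ_eq Trip.t1, ← mul_assoc, ht_mul, J0]; push_cast; ring
    rw [h1]
    exact (lt_or_gt_of_ne (ht_ne_zero _ _)).symm
  rcases hs with hs | hs
  · have hx : PosK cs (z * wJ cs) 0 1 3 := by
      constructor <;> simp only [wJ_eq Trip.t1, ← mul_assoc, ht_mul, J0] <;> push_cast <;>
        linarith
    have hn := NL.a (T := T) Trip.t1 hx
    rw [← hz1] at hn
    exact ⟨_, _, _, hn⟩
  rcases hp Trip.t1 with p01 | p01 <;> rcases hp Trip.t2 with p03 | p03 <;>
    rcases hp Trip.t4 with p13 | p13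
  · -- all positive
    have hx : PosK cs (z * wJ cs * cs.simple 2) 0 1 3 := by
      constructor <;> simp only [wJ_eq Trip.t1, ← mul_assoc, ht_mul, J0] <;> push_cast <;>
        linarith
    have hn := NL.b (T := T) Trip.t1 hx
    rw [cs.simple_mul_simple_cancel_right, ← hz1] at hn
    exact ⟨_, _, _, hn⟩
  · exact caseC Trip.t1 (by linarith) (by linarith) (by linarith) (by linarith) (by linarith)
  · exact caseC Trip.t3 (by linarith) (by linarith) (by linarith) (by linarith) (by linarith)
  · exact caseD Trip.t1 (by linarith) (by linarith) (by linarith) (by linarith)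
  · exact caseC Trip.t5 (by linarith) (by linarith) (by linarith) (by linarith) (by linarith)
  · exact caseD Trip.t2 (by linarith) (by linarith) (by linarith) (by linarith)
  · exact caseD Trip.t4 (by linarith) (by linarith) (by linarith) (by linarith)
  · -- all negative
    have hd : 0 < 2 * ht cs z 2 + ht cs z 0 + ht cs z 1 + ht cs z 3 ∨
        2 * ht cs z 2 + ht cs z 0 + ht cs z 1 + ht cs z 3 < 0 := by
      have h1 : 2 * ht cs z 2 + ht cs z 0 + ht cs z 1 + ht cs z 3 =
          ht cs (z * wJ cs * cs.simple 2 * cs.simple 0 * cs.simple 1 * cs.simple 3) 2 := by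
        simp only [wJ_eq Trip.t1, ← mul_assoc, ht_mul, J0]; push_cast; ring
      rw [h1]
      exact (lt_or_gt_of_ne (ht_ne_zero _ _)).symm
    rcases hd with hd | hd
    · have hx : PosK cs (z * wJ cs * cs.simple 2 * cs.simple 0 * cs.simple 1 * cs.simple 3)
          0 1 3 := by
        constructor <;> simp only [wJ_eq Trip.t1, ← mul_assoc, ht_mul, J0] <;> push_cast <;>
          linarith
      have hn := NL.e (T := T) Trip.t1 hx
      rw [cs.simple_mul_simple_cancel_right, cs.simple_mul_simple_cancel_right,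
        cs.simple_mul_simple_cancel_right, cs.simple_mul_simple_cancel_right, ← hz1] at hn
      exact ⟨_, _, _, hn⟩
    · have hx : PosK cs (z * wJ cs * cs.simple 2 * cs.simple 0 * cs.simple 1 * cs.simple 3 *
          cs.simple 2) 0 1 3 := by
        constructor <;> simp only [wJ_eq Trip.t1, ← mul_assoc, ht_mul, J0] <;> push_cast <;>
          linarith
      have hn := NL.f (T := T) Trip.t1 hx
      rw [cs.simple_mul_simple_cancel_right, cs.simple_mul_simple_cancel_right,
        cs.simple_mul_simple_cancel_right, cs.simple_mul_simple_cancel_right,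
        cs.simple_mul_simple_cancel_right, ← hz1] at hn
      exact ⟨_, _, _, hn⟩

end Pool.Agent.Helper703.ST
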