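import Pool.Agent.Helper703.ST.Claim2

set_option autoImplicit false

namespace Pool.Agent.Helper703.ST

open LaurentPolynomial Module Pool.Agent.Helper703.KL

variable {W : Type*} [Group W] {cs : CoxeterSystem affD W}
variable {H : Type*} [Ring H] [Algebra A H] {T : Basis W A H} {bar : H →+* H} {C : Basis W A H}

lemma bar_dd : (invert (dd : A) : A) = dd := by
  rw [dd, map_add, invert_T, invert_T, add_comm]
  norm_num

lemma bar_rho (hT : IsHecke cs T) (hb : IsBar cs T bar) :
    bar (rho dd (gg cs T)) = rho dd (gg cs T) := by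
  have h := gg_bar hT hb
  unfold rho v1 v0
  rw [map_sub, hb.smul, map_mul, map_mul, map_mul, map_one, h, h, h, h, map_add, map_pow, bar_dd,
    map_one]

omit [Group W] in
/-- coefficient of the image under a linear map -/
lemma coef_map (C : Basis W A H) (F : H →ₗ[A] H) (h : H) (y : W) :
    C.repr (F h) y = ∑ u ∈ (C.repr h).support, C.repr h u * C.repr (F (C u)) y := by
  conv_lhs => rw [expand_C C h]
  rw [map_sum, map_sum, Finsupp.finsetSum_apply]
  apply Finset.sum_congr rfl
  intro u _
  rw [map_smul, map_smul, Finsupp.smul_apply, smul_eq_mul]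

lemma coef_eq_of_sub_mem {h h' : H} (hh : h - h' ∈ InLow cs C) {y : W} (hy : ¬ Low cs y) :
    C.repr h y = C.repr h' y := by
  have := hh y hy
  rw [map_sub, Finsupp.sub_apply] at this
  exact sub_eq_zero.1 this

lemma inJ_of_eig (hT : IsHecke cs T) (hb : IsBar cs T bar) (hC : IsKLBasis cs T bar C) {h : H}
    (hh : REig dd (gg cs T) h) {u : W} (hu : C.repr h u ≠ 0) : InJ cs u := by
  refine ⟨?_, ?_, ?_⟩ <;> rw [ht_neg_iff]
  · exact supp_of_eigen hT hb hC 0 h hh.1 u hu
  · exact supp_of_eigen hT hb hC 1 h hh.2.1 u hu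
  · exact supp_of_eigen hT hb hC 3 h hh.2.2 u hu

theorem claim1 (hT : IsHecke cs T) (hb : IsBar cs T bar) (hC : IsKLBasis cs T bar C) (n : ℕ) :
    ∀ z z' X X', cs.length z = n → NL cs T z z' X X' →
      C z * rho dd (gg cs T) - C z' ∈ InLow cs C := by
  classical
  induction n using Nat.strong_induction_on with
  | _ n ih =>
    intro z z' X X' hn h y hy
    -- the coefficient is invariant
    have hinv : (invert (C.repr (C z * rho dd (gg cs T) - C z') y) : A) =
        C.repr (C z * rho dd (gg cs T) - C z') y := by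
      rw [← C_repr_bar hb hC, map_sub, map_mul, hC.bar_eq, hC.bar_eq, bar_rho hT hb]
    -- the coefficient is in `v⁻¹ ℤ[v⁻¹]`
    have hX : Sm cs T (cs.length z) (X - C z) := by
      have e : X - C z = (X - nb cs T z) - (C z - nb cs T z) := by abel
      rw [e]
      exact Sm.sub (h.tri hT) (C_tri hT hb hC z)
    have hX' : Sm cs T (cs.length z') (X' - C z') := by
      have e : X' - C z' = (X' - nb cs T z') - (C z' - nb cs T z') := by abel
      rw [e]
      exact Sm.sub (h.symm.tri hT) (C_tri hT hb hC z')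
    have hDe : REig dd (gg cs T) (X - C z) := by
      refine (h.eig hT).sub ?_
      have hJ := h.nonLow.1
      exact ⟨gg_down hT hb hC 0 z ((ht_neg_iff z 0).1 hJ.1),
        gg_down hT hb hC 1 z ((ht_neg_iff z 1).1 hJ.2.1),
        gg_down hT hb hC 3 z ((ht_neg_iff z 3).1 hJ.2.2)⟩
    have e : C z * rho dd (gg cs T) - C z' = (X * rho dd (gg cs T) - X') + (X' - C z')
        - (X - C z) * rho dd (gg cs T) := by
      rw [sub_mul]; abel
    obtain ⟨a1, a2⟩ := Sm.C_coef hT hb hC _ _ hX
    obtain ⟨b1, _⟩ := Sm.C_coef hT hb hC _ _ hX'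
    have hneg : KL.Neg (C.repr (C z * rho dd (gg cs T) - C z') y) := by
      rw [e, map_sub, map_add, Finsupp.sub_apply, Finsupp.add_apply,
        (h.rho hT hb hC) y hy, zero_add]
      refine (b1 y).sub ?_
      have e2 := coef_map C (LinearMap.mulRight A (rho dd (gg cs T))) (X - C z) y
      simp only [LinearMap.mulRight_apply] at e2
      rw [e2]
      apply Neg.sum
      intro u hu
      have hu' := Finsupp.mem_support_iff.1 hu
      apply neg_mul_nonPos (a1 u)
      have hJu := inJ_of_eig hT hb hC hDe hu'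
      by_cases hlu : Low cs u
      · rw [low_rho hT hb hC _ u rfl hlu y hy]
        intro m _
        rw [coeff_zero]
      · obtain ⟨u', Y, Y', hNL⟩ := exists_NL (T := T) hJu hlu
        have h3 := ih (cs.length u) (by have := a2 u hu'; omega) u u' Y Y' rfl hNL
        rw [coef_eq_of_sub_mem h3 hy, Basis.repr_self, Finsupp.single_apply]
        split_ifs
        · exact NonPos.one
        · intro m _
          rw [coeff_zero]
    exact eq_zero_of_invert hinv hneg

variable (cs T C) in
/-- `C_z ρ ≡ C_{z'}` and `C_{z'} ρ ≡ C_z` modulo lower elements -/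
def Pair (z z' : W) : Prop :=
  C z * rho dd (gg cs T) - C z' ∈ InLow cs C ∧ C z' * rho dd (gg cs T) - C z ∈ InLow cs C ∧
    InJ cs z ∧ ¬ Low cs z ∧ ¬ Low cs z'

lemma NL.pair (hT : IsHecke cs T) (hb : IsBar cs T bar) (hC : IsKLBasis cs T bar C)
    {z z' : W} {X X' : H} (h : NL cs T z z' X X') : Pair cs T C z z' :=
  ⟨claim1 hT hb hC _ z z' X X' rfl h, claim1 hT hb hC _ z' z X' X rfl h.symm,
    h.nonLow.1, h.nonLow.2, h.symm.nonLow.2⟩

/-- non-lower basis elements are independent modulo lower elements -/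
lemma eq_of_sub_mem {z z' : W} (h : C z - C z' ∈ InLow cs C) (hz : ¬ Low cs z) : z' = z := by
  classical
  have h1 := coef_eq_of_sub_mem h hz
  rw [Basis.repr_self, Basis.repr_self, Finsupp.single_apply, Finsupp.single_apply,
    if_pos rfl] at h1
  by_contra hne
  rw [if_neg hne] at h1
  exact one_ne_zero h1

lemma Pair.inj {z z' y : W} (h : Pair cs T C z y) (h' : Pair cs T C z' y) : z' = z := by
  apply eq_of_sub_mem (C := C) _ h.2.2.2.1
  have := Submodule.sub_mem _ h'.2.1 h.2.1
  have e : C y * rho dd (gg cs T) - C z' - (C y * rho dd (gg cs T) - C z) = C z - C z' := by abel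
  rwa [e] at this

lemma Pair.func {z y y' : W} (h : Pair cs T C z y) (h' : Pair cs T C z y') : y' = y := by
  apply eq_of_sub_mem (C := C) _ h.2.2.2.2
  have := Submodule.sub_mem _ h'.1 h.1
  have e : C z * rho dd (gg cs T) - C y' - (C z * rho dd (gg cs T) - C y) = C y - C y' := by abel
  rwa [e] at this

variable (cs T C) in
/-- the closed set -/
def Good (z : W) : Prop := Low cs z ∨ ∃ z', Pair cs T C z z' ∧ ht cs z' 4 < 0

lemma good_step (hT : IsHecke cs T) (hb : IsBar cs T bar) (hC : IsKLBasis cs T bar C)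
    {k : Fin 5} {z y : W} (h : C.repr (T (cs.simple k) * C z) y ≠ 0) (hz : Good cs T C z) :
    Good cs T C y := by
  classical
  rcases hz with hz | ⟨z', hp, h4⟩
  · exact Or.inl (low_step hT hb hC h hz)
  by_cases hly : Low cs y
  · exact Or.inl hly
  right
  have hJz := hp.2.2.1
  have hJy : InJ cs y := ⟨desc_ht hT hb hC h 0 hJz.1, desc_ht hT hb hC h 1 hJz.2.1,
    desc_ht hT hb hC h 3 hJz.2.2⟩
  obtain ⟨y', Y, Y', hNL⟩ := exists_NL (T := T) hJy hly
  have hpy := hNL.pair hT hb hC
  refine ⟨y', hpy, ?_⟩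
  have hyl' : ¬ Low cs y' := hpy.2.2.2.2
  suffices hne : C.repr (T (cs.simple k) * C z') y' ≠ 0 from desc_ht hT hb hC hne 4 h4
  have e1 : C.repr (T (cs.simple k) * (C z * rho dd (gg cs T))) y' =
      C.repr (T (cs.simple k) * C z') y' := by
    apply coef_eq_of_sub_mem _ hyl'
    rw [← mul_sub]
    exact T_mul_mem hT hb hC k hp.1
  rw [← e1, ← mul_assoc]
  have e2 := coef_map C (LinearMap.mulRight A (rho dd (gg cs T))) (T (cs.simple k) * C z) y'
  simp only [LinearMap.mulRight_apply] at e2
  have e3 : ∑ u ∈ (C.repr (T (cs.simple k) * C z)).support,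
      C.repr (T (cs.simple k) * C z) u * C.repr (C u * rho dd (gg cs T)) y' =
      C.repr (T (cs.simple k) * C z) y := by
    rw [Finset.sum_eq_single y]
    · rw [coef_eq_of_sub_mem hpy.1 hyl', Basis.repr_self, Finsupp.single_apply, if_pos rfl,
        mul_one]
    · intro u hu huy
      have hu' := Finsupp.mem_support_iff.1 hu
      by_cases hlu : Low cs u
      · rw [low_rho hT hb hC _ u rfl hlu y' hyl', mul_zero]
      · have hJu : InJ cs u := ⟨desc_ht hT hb hC hu' 0 hJz.1, desc_ht hT hb hC hu' 1 hJz.2.1,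
          desc_ht hT hb hC hu' 3 hJz.2.2⟩
        obtain ⟨u', U, U', hNLu⟩ := exists_NL (T := T) hJu hlu
        have hpu := hNLu.pair hT hb hC
        rw [coef_eq_of_sub_mem hpu.1 hyl', Basis.repr_self, Finsupp.single_apply, if_neg,
          mul_zero]
        intro huy'
        subst huy'
        exact huy (Pair.inj hpy hpu)
    · intro hy
      rw [Finsupp.notMem_support_iff.1 hy, zero_mul]
  rw [e2, e3]
  exact h

lemma good_of_LLe (hT : IsHecke cs T) (hb : IsBar cs T bar) (hC : IsKLBasis cs T bar C)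
    {x y : W} (h : LLe cs T C y x) (hx : Good cs T C x) : Good cs T C y := by
  induction h with
  | refl => exact hx
  | tail _ h2 ih =>
    obtain ⟨k, hk⟩ := h2
    exact good_step hT hb hC hk ih

variable (cs) in
/-- the element `g' = w_J s_2 w_J` -/
def gp : W := cs.simple 3 * cs.simple 1 * cs.simple 0 * cs.simple 2 * wJ cs

lemma ht_gen (i j : Fin 5) : ht cs (cs.simple j) i = 1 + (cI i j : ℝ) := ht_simple j i

lemma posK_one : PosK cs (1 : W) 0 1 3 := by
  constructor <;> rw [ht_one] <;> norm_num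

lemma posK_s4 : PosK cs (cs.simple 4) 0 1 3 := by
  constructor <;> rw [ht_gen, cI_val] <;> norm_num [Fin.ext_iff]

theorem not_LLe (hT : IsHecke cs T) (hb : IsBar cs T bar) (hC : IsKLBasis cs T bar C) :
    ¬ LLe cs T C (gp cs) (cs.simple 4 * gp cs) := by
  intro h
  have h1 := NL.e (T := T) Trip.t1 (posK_s4 (cs := cs))
  have h2 := NL.e (T := T) Trip.t1 (posK_one (cs := cs))
  have e1 : cs.simple 4 * cs.simple 3 * cs.simple 1 * cs.simple 0 * cs.simple 2 * wJ cs =
      cs.simple 4 * gp cs := by
    unfold gp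
    simp only [mul_assoc]
  have e2 : 1 * cs.simple 3 * cs.simple 1 * cs.simple 0 * cs.simple 2 * wJ cs = gp cs := by
    unfold gp
    rw [one_mul]
  rw [e1] at h1
  rw [e2, one_mul] at h2
  have p1 := h1.pair hT hb hC
  have p2 := h2.pair hT hb hC
  have g1 : Good cs T C (cs.simple 4 * gp cs) := by
    right
    refine ⟨_, p1, ?_⟩
    have e : wJ cs = cs.simple 0 * cs.simple 1 * cs.simple 3 := rfl
    rw [e]
    simp only [← mul_assoc, ht_mul, ht_gen, cI_val]
    norm_num [Fin.ext_iff]
  have g2 := good_of_LLe hT hb hC h g1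
  rcases g2 with g2 | ⟨z', p3, h4⟩
  · exact h2.nonLow.2 g2
  · have := p2.func p3
    rw [this] at h4
    have e : wJ cs = cs.simple 0 * cs.simple 1 * cs.simple 3 := rfl
    rw [e] at h4
    simp only [ht_mul, ht_gen, cI_val] at h4
    norm_num [Fin.ext_iff] at h4

end Pool.Agent.Helper703.ST
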