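import Pool.Agent.Helper703.KL.Defs

set_option autoImplicit false

/-! Definitions for the statement on sign types in the affine Weyl group of type `D~_4`. -/

namespace Pool.Agent.Helper703.ST

/-- The Coxeter matrix of affine type `D~_4`: the vertex `2` is joined to the vertices
`0, 1, 3, 4`, and there are no other edges. -/
def affD : CoxeterMatrix (Fin 5) where
  M := Matrix.of fun i j => if i = j then 1 else if i = 2 ∨ j = 2 then 3 else 2
  isSymm := by
    ext i j
    simp only [Matrix.transpose_apply, Matrix.of_apply]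
    by_cases h : i = j
    · simp [h]
    · simp only [h, Ne.symm h, if_false, or_comm]
  diagonal := by
    intro i
    simp
  off_diagonal := by
    intro i j h
    simp only [Matrix.of_apply, h, if_false]
    split_ifs <;> norm_num

/-- The roots of the root system `D_4`: the integer vectors of squared length `2`. -/
def IsRoot (α : Fin 4 → ℤ) : Prop := ∑ i, α i ^ 2 = 2

/-- The simple roots `α_1, …, α_4` of `D_4` (`α_2` is the branch vertex) and `α_0 = - θ`, where
`θ` is the highest root. -/
def simpleRoot : Fin 5 → Fin 4 → ℤ :=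
  ![![-1, -1, 0, 0], ![1, -1, 0, 0], ![0, 1, -1, 0], ![0, 0, 1, -1], ![0, 0, 1, 1]]

/-- The reflection of the root lattice in the root `α_i`; this is the image of the generator
`s_i` of the affine Weyl group in the Weyl group of type `D_4`. -/
def refl (i : Fin 5) (α : Fin 4 → ℤ) : Fin 4 → ℤ :=
  fun l => α l - (∑ j, α j * simpleRoot i j) * simpleRoot i l

/-- The alcove form of `s_i`: `-1` at `α_i`, `1` at `-α_i`, and `0` at all other roots. -/
def kgen (i : Fin 5) (α : Fin 4 → ℤ) : ℤ :=
  if α = simpleRoot i then -1 else if α = - simpleRoot i then 1 else 0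

/-- `k` is the alcove form of the affine Weyl group `W` of type `D~_4`: `k (e, α) = 0` and
`k (w s_i, α) = k (w, (α) s_i) + k (s_i, α)` for all roots `α`. -/
structure IsAlcoveForm {W : Type*} [Group W] (cs : CoxeterSystem affD W)
    (k : W → (Fin 4 → ℤ) → ℤ) : Prop where
  one : ∀ α, IsRoot α → k 1 α = 0
  mul : ∀ w i α, IsRoot α → k (w * cs.simple i) α = k w (refl i α) + kgen i α

/-- The reflection `x ↦ x - (⟨x, α_i⟩ + δ) α_i` of the Euclidean space, `δ = 1` for `i = 0` and
`δ = 0` otherwise: the wall of `s_i` is `⟨x, α_i⟩ = 0` for `i ≠ 0` and `⟨x, θ⟩ = 1` for `i = 0`. -/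
def affRefl (i : Fin 5) (x : Fin 4 → ℝ) : Fin 4 → ℝ :=
  fun l => x l - (∑ j, x j * simpleRoot i j + if i = 0 then 1 else 0) * simpleRoot i l

/-- The fundamental alcove: `⟨x, α_i⟩ > 0` for `i = 1, 2, 3, 4` and `⟨x, θ⟩ < 1`. -/
def InAlcove (x : Fin 4 → ℝ) : Prop :=
  (∀ i, i ≠ 0 → 0 < ∑ j, x j * simpleRoot i j) ∧ -1 < ∑ j, x j * simpleRoot 0 j

/-- The positive roots: those of positive height, where the height is the linear form
`3 a_1 + 2 a_2 + a_3`, which has the value `1` at each of `α_1, …, α_4`. -/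
def IsPosRoot (α : Fin 4 → ℤ) : Prop := IsRoot α ∧ 0 < 3 * α 0 + 2 * α 1 + α 2

/-- `k` is the geometric alcove form: `k (w, -α) = - k (w, α)`, and for a positive root `α` and
all points `x` of the fundamental alcove one has `k (w, α) < ⟨x w, α⟩ < k (w, α) + 1`, where
`w = s_{i_1} ⋯ s_{i_r}` acts on the right, `x w = (⋯ (x s_{i_1}) ⋯) s_{i_r}`. -/
def IsGeometric {W : Type*} [Group W] (cs : CoxeterSystem affD W)
    (k : W → (Fin 4 → ℤ) → ℤ) : Prop :=
  (∀ w α, IsRoot α → k w (-α) = -k w α) ∧
  ∀ (ω : List (Fin 5)) (x : Fin 4 → ℝ), InAlcove x → ∀ α, IsPosRoot α →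
    (k (cs.wordProd ω) α : ℝ) < ∑ j, (ω.foldl (fun y i => affRefl i y) x) j * α j ∧
    ∑ j, (ω.foldl (fun y i => affRefl i y) x) j * α j < k (cs.wordProd ω) α + 1

/-- `w` and `w'` lie in the same sign type: `k (w, α)` and `k (w', α)` have the same sign
(`+`, `-` or `0`) for every root `α`. -/
def SameSignType {W : Type*} (k : W → (Fin 4 → ℤ) → ℤ) (w w' : W) : Prop :=
  ∀ α, IsRoot α → (k w α).sign = (k w' α).sign

/-- `X` is a sign type of `W`: the non-empty set of all elements with a given pattern of signs. -/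
def IsSignType {W : Type*} (k : W → (Fin 4 → ℤ) → ℤ) (X : Set W) : Prop :=
  ∃ w, X = {w' | SameSignType k w' w}

/-- `Γ` is a left cell of `W`: an equivalence class for the Kazhdan-Lusztig left preorder. -/
def IsLeftCell {W : Type*} [Group W] (cs : CoxeterSystem affD W) {H : Type*} [Ring H]
    [Algebra KL.A H] (T C : Module.Basis W KL.A H) (Γ : Set W) : Prop :=
  ∃ w, Γ = {w' | KL.LEq cs T C w' w}

end Pool.Agent.Helper703.ST
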