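import Pool.Agent.Helper703.ST.Tri

set_option autoImplicit false

namespace Pool.Agent.Helper703.ST

open LaurentPolynomial Module Pool.Agent.Helper703.KL

variable {W : Type*} [Group W] {cs : CoxeterSystem affD W}
variable {H : Type*} [Ring H] [Algebra A H] {T : Basis W A H} {bar : H →+* H} {C : Basis W A H}

variable (cs T) in
/-- normalised generator -/
noncomputable def tt (i : Fin 5) : H := v (-1) • T (cs.simple i)

lemma gg_eq (i : Fin 5) : gg cs T i = tt cs T i + v (-1) • (1 : H) := by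
  rw [gg, tt, smul_add]

lemma len_pos {x : W} {i : Fin 5} (h : 0 < ht cs x i) :
    cs.length (x * cs.simple i) = cs.length x + 1 := by
  have h1 := (ht_pos_iff x i).1 h
  rcases cs.length_mul_simple x i with h2 | h2 <;> omega

lemma nb_tt (hT : IsHecke cs T) {x : W} {i : Fin 5} (h : 0 < ht cs x i) :
    nb cs T x * tt cs T i = nb cs T (x * cs.simple i) := by
  rw [nb_apply, nb_apply, tt, smul_mul_assoc, mul_smul_comm, TT hT x i h, smul_smul, v_mul_v,
    len_pos h]
  congr 2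
  push_cast; ring

lemma nb_tt' (hT : IsHecke cs T) {x : W} {i : Fin 5} (h : 0 < ht cs x i) (y : H) :
    nb cs T x * (tt cs T i * y) = nb cs T (x * cs.simple i) * y := by
  rw [← mul_assoc, nb_tt hT h]

lemma nb_gg (hT : IsHecke cs T) {x : W} {i : Fin 5} (h : 0 < ht cs x i) :
    nb cs T x * gg cs T i = nb cs T (x * cs.simple i) + v (-1) • nb cs T x := by
  rw [gg_eq, mul_add, nb_tt hT h, mul_smul_comm, mul_one]

lemma ht_of_pos {x : W} {i j : Fin 5} (hij : cI i j = 0) : ht cs (x * cs.simple j) i = ht cs x i := by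
  rw [ht_mul, hij]; push_cast; ring

lemma tri_v0_aux (hT : IsHecke cs T) {a b c : Fin 5} (ht' : Trip a b c) {x : W}
    (ha : 0 < ht cs x a) (hb : 0 < ht cs x b) (hc : 0 < ht cs x c) :
    Tri cs T (x * cs.simple a * cs.simple b * cs.simple c) (nb cs T x * v0 (gg cs T)) := by
  have I := ht'.I
  rw [(hD4 hT).v0_eq ht']
  have pb : 0 < ht cs (x * cs.simple a) b := by rwa [ht_of_pos I.ba]
  have pc : 0 < ht cs (x * cs.simple a) c := by rwa [ht_of_pos I.ca]
  have pbc : 0 < ht cs (x * cs.simple b) c := by rwa [ht_of_pos I.cb]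
  have pabc : 0 < ht cs (x * cs.simple a * cs.simple b) c := by rwa [ht_of_pos I.cb]
  have e : nb cs T x * (gg cs T a * (gg cs T b * gg cs T c)) =
      nb cs T (x * cs.simple a * cs.simple b * cs.simple c) +
      (v (-1) • nb cs T (x * cs.simple a * cs.simple b)
      + v (-1) • nb cs T (x * cs.simple a * cs.simple c)
      + v (-1) • nb cs T (x * cs.simple b * cs.simple c)
      + v (-2) • nb cs T (x * cs.simple a) + v (-2) • nb cs T (x * cs.simple b)
      + v (-2) • nb cs T (x * cs.simple c) + v (-3) • nb cs T x) := by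
    have e2 : v (-1) * v (-1) = v (-2) := by rw [v_mul_v]; norm_num
    have e3 : v (-2) * v (-1) = v (-3) := by rw [v_mul_v]; norm_num
    rw [← mul_assoc, ← mul_assoc, nb_gg hT ha, add_mul, smul_mul_assoc, nb_gg hT pb, nb_gg hT hb]
    simp only [add_mul, smul_mul_assoc, nb_gg hT pabc, nb_gg hT pc, nb_gg hT pbc, nb_gg hT hc,
      smul_add, smul_smul, e2, e3]
    abel
  rw [e]
  refine (Tri.nb _).add_sm ?_
  have l1 := len_pos ha
  have l2 := len_pos hb
  have l3 := len_pos hc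
  have l4 := len_pos pb
  have l5 := len_pos pc
  have l6 := len_pos pbc
  have l7 := len_pos pabc
  have n1 : Neg (v (-1)) := neg_v (by norm_num)
  have n2 : Neg (v (-2)) := neg_v (by norm_num)
  have n3 : Neg (v (-3)) := neg_v (by norm_num)
  refine Sm.add (Sm.add (Sm.add (Sm.add (Sm.add (Sm.add ?_ ?_) ?_) ?_) ?_) ?_) ?_
  · exact (Tri.nb _).smul_sm n1 (by omega)
  · exact (Tri.nb _).smul_sm n1 (by omega)
  · exact (Tri.nb _).smul_sm n1 (by omega)
  · exact (Tri.nb _).smul_sm n2 (by omega)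
  · exact (Tri.nb _).smul_sm n2 (by omega)
  · exact (Tri.nb _).smul_sm n2 (by omega)
  · exact (Tri.nb _).smul_sm n3 (by omega)

variable (cs) in
/-- the longest element of the parabolic subgroup of `J` -/
def wJ : W := cs.simple 0 * cs.simple 1 * cs.simple 3

lemma simple_comm' {i j : Fin 5} (hi : i ≠ 2) (hj : j ≠ 2) :
    cs.simple i * cs.simple j = cs.simple j * cs.simple i := by
  by_cases h : i = j
  · rw [h]
  · apply simple_comm
    rw [affD_apply, if_neg h, if_neg (by rintro (h | h) <;> contradiction)]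

lemma wJ_eq {a b c : Fin 5} (h : Trip a b c) :
    wJ cs = cs.simple a * cs.simple b * cs.simple c := by
  unfold wJ
  have e01 := simple_comm' (cs := cs) (i := 0) (j := 1) (by decide) (by decide)
  have e03 := simple_comm' (cs := cs) (i := 0) (j := 3) (by decide) (by decide)
  have e13 := simple_comm' (cs := cs) (i := 1) (j := 3) (by decide) (by decide)
  cases h
  · rfl
  · rw [mul_assoc, e13, ← mul_assoc]
  · rw [e01]
  · rw [e01, mul_assoc, e03, ← mul_assoc]
  · rw [mul_assoc, e13, ← mul_assoc, e03]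
  · rw [mul_assoc, e13, ← mul_assoc, e03, mul_assoc, e01, ← mul_assoc]

lemma tri_v0 (hT : IsHecke cs T) {a b c : Fin 5} (ht' : Trip a b c) {x : W}
    (ha : 0 < ht cs x a) (hb : 0 < ht cs x b) (hc : 0 < ht cs x c) :
    Tri cs T (x * wJ cs) (nb cs T x * v0 (gg cs T)) := by
  have := tri_v0_aux hT ht' ha hb hc
  rwa [mul_assoc, mul_assoc, ← mul_assoc (cs.simple a), ← wJ_eq ht'] at this

lemma len_wJ {a b c : Fin 5} (ht' : Trip a b c) {x : W}
    (ha : 0 < ht cs x a) (hb : 0 < ht cs x b) (hc : 0 < ht cs x c) :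
    cs.length (x * wJ cs) = cs.length x + 3 := by
  have I := ht'.I
  have pb : 0 < ht cs (x * cs.simple a) b := by rwa [ht_of_pos I.ba]
  have pabc : 0 < ht cs (x * cs.simple a * cs.simple b) c := by
    rwa [ht_of_pos I.cb, ht_of_pos I.ca]
  have l1 := len_pos ha
  have l4 := len_pos pb
  have l7 := len_pos pabc
  rw [wJ_eq ht', ← mul_assoc, ← mul_assoc]
  omega

/-- `(t + v⁻¹) h` -/
lemma gg_mul (i : Fin 5) (h : H) : gg cs T i * h = tt cs T i * h + v (-1) • h := by
  rw [gg_eq, add_mul, smul_mul_assoc, one_mul]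

lemma tt_v0 (hT : IsHecke cs T) {a b c : Fin 5} (ht' : Trip a b c) :
    tt cs T a * v0 (gg cs T) = v 1 • v0 (gg cs T) := by
  have h := (hD4 hT).g_v0 ht'
  rw [gg_mul, dd] at h
  linear_combination (norm := module) h

lemma tt_sq (hT : IsHecke cs T) (i : Fin 5) (h : H) :
    tt cs T i * (tt cs T i * h) = (v 1 - v (-1)) • (tt cs T i * h) + h := by
  have e : tt cs T i = gg cs T i - v (-1) • (1 : H) := by rw [gg_eq]; abel
  have e2 : v (-1) * v 1 = 1 := by rw [v_mul_v]; simp
  rw [e, sub_mul, sub_mul, mul_sub, smul_mul_assoc, one_mul, mul_smul_comm, (hD4 hT).sq',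
    smul_mul_assoc, one_mul, dd]
  linear_combination (norm := module) (e2) • h

lemma tt_comm (hT : IsHecke cs T) {i j : Fin 5} (hi : i ≠ 2) (hj : j ≠ 2) (h : H) :
    tt cs T i * (tt cs T j * h) = tt cs T j * (tt cs T i * h) := by
  have e := (hD4 hT).comm' i j hi hj h
  simp only [gg_mul, mul_add, mul_smul_comm] at e
  linear_combination (norm := module) e

/-- `t_2 t_i t_2 v_0 = v t_i t_2 v_0` -/
lemma tt_braid (hT : IsHecke cs T) {a b c : Fin 5} (ht' : Trip a b c) :
    tt cs T 2 * (tt cs T a * (tt cs T 2 * v0 (gg cs T))) =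
      v 1 • (tt cs T a * (tt cs T 2 * v0 (gg cs T))) := by
  have e := (hD4 hT).braid' a ht'.ne2 (v0 (gg cs T))
  have e1 := tt_v0 hT ht'
  have e2 := tt_sq hT 2 (v0 (gg cs T))
  have e4 : v (-1) * v 1 = 1 := by rw [v_mul_v]; simp
  have e5 : v (-1) * v (-1) = v (-2) := by rw [v_mul_v]; norm_num
  simp only [gg_mul, mul_add, mul_smul_comm, e1, e2] at e
  linear_combination (norm := module) e - e4 • (tt cs T 2 * v0 (gg cs T)) +
    (v (-1) + v 1) • (e4 • v0 (gg cs T))

/-- first expansion -/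
lemma ex1 : v1 (gg cs T) = tt cs T 2 * v0 (gg cs T) + v (-1) • v0 (gg cs T) := by
  rw [v1, gg_mul]

lemma ex2 (hT : IsHecke cs T) {a b c : Fin 5} (ht' : Trip a b c) :
    Pe (gg cs T) a = tt cs T a * (tt cs T 2 * v0 (gg cs T)) +
      v (-1) • (tt cs T 2 * v0 (gg cs T)) + v (-2) • v0 (gg cs T) := by
  have e4 : v (-1) * v 1 = 1 := by rw [v_mul_v]; simp
  have e5 : v (-1) * v (-1) = v (-2) := by rw [v_mul_v]; norm_num
  rw [Pe, ex1]
  simp only [gg_mul, mul_add, mul_smul_comm, tt_v0 hT ht', smul_add, smul_smul, e4, e5]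
  module

lemma ex3 (hT : IsHecke cs T) {a b c : Fin 5} (ht' : Trip a b c) :
    Qe dd (gg cs T) a b = tt cs T b * (tt cs T a * (tt cs T 2 * v0 (gg cs T))) +
      v (-1) • (tt cs T a * (tt cs T 2 * v0 (gg cs T))) +
      v (-1) • (tt cs T b * (tt cs T 2 * v0 (gg cs T))) +
      v (-2) • (tt cs T 2 * v0 (gg cs T)) + (v (-1) + v (-3)) • v0 (gg cs T) := by
  have e4 : v (-2) * v 1 = v (-1) := by rw [v_mul_v]; norm_num
  have e5 : v (-1) * v (-1) = v (-2) := by rw [v_mul_v]; norm_num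
  have e6 : v (-2) * v (-1) = v (-3) := by rw [v_mul_v]; norm_num
  rw [← (hD4 hT).g_P' ht', ex2 hT ht']
  simp only [gg_mul, mul_add, mul_smul_comm, tt_v0 hT ht'.swap, smul_add, smul_smul, e4, e5, e6]
  module

lemma ex4 (hT : IsHecke cs T) {a b c : Fin 5} (ht' : Trip a b c) :
    v0' dd (gg cs T) = tt cs T c * (tt cs T b * (tt cs T a * (tt cs T 2 * v0 (gg cs T)))) +
      v (-1) • (tt cs T b * (tt cs T a * (tt cs T 2 * v0 (gg cs T)))) +
      v (-1) • (tt cs T c * (tt cs T a * (tt cs T 2 * v0 (gg cs T)))) +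
      v (-1) • (tt cs T c * (tt cs T b * (tt cs T 2 * v0 (gg cs T)))) +
      v (-2) • (tt cs T a * (tt cs T 2 * v0 (gg cs T))) +
      v (-2) • (tt cs T b * (tt cs T 2 * v0 (gg cs T))) +
      v (-2) • (tt cs T c * (tt cs T 2 * v0 (gg cs T))) +
      v (-3) • (tt cs T 2 * v0 (gg cs T)) + (2 * v (-2) + v (-4)) • v0 (gg cs T) := by
  have e3 : v (-1) * v 1 = 1 := by rw [v_mul_v]; simp
  have e5 : v (-1) * v (-1) = v (-2) := by rw [v_mul_v]; norm_num
  have e6 : v (-2) * v (-1) = v (-3) := by rw [v_mul_v]; norm_num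
  have e7 : v (-3) * v (-1) = v (-4) := by rw [v_mul_v]; norm_num
  have e8 : v (-3) * v 1 = v (-2) := by rw [v_mul_v]; norm_num
  have e : v0' dd (gg cs T) = gg cs T c * Qe dd (gg cs T) a b - v0 (gg cs T) := by
    rw [(hD4 hT).g_Q' ht']; abel
  rw [e, ex3 hT ht']
  simp only [gg_mul, mul_add, add_mul, mul_smul_comm, tt_v0 hT ht'.rot.rot, smul_add, smul_smul,
    e3, e5, e6, e7, e8]
  module

lemma ex5 (hT : IsHecke cs T) {a b c : Fin 5} (ht' : Trip a b c) :
    v1' dd (gg cs T) =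
      tt cs T 2 * (tt cs T c * (tt cs T b * (tt cs T a * (tt cs T 2 * v0 (gg cs T))))) +
      v (-1) • (tt cs T c * (tt cs T b * (tt cs T a * (tt cs T 2 * v0 (gg cs T))))) +
      v (-1) • (tt cs T 2 * (tt cs T b * (tt cs T a * (tt cs T 2 * v0 (gg cs T))))) +
      v (-1) • (tt cs T 2 * (tt cs T c * (tt cs T a * (tt cs T 2 * v0 (gg cs T))))) +
      v (-1) • (tt cs T 2 * (tt cs T c * (tt cs T b * (tt cs T 2 * v0 (gg cs T))))) +
      v (-2) • (tt cs T b * (tt cs T a * (tt cs T 2 * v0 (gg cs T)))) +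
      v (-2) • (tt cs T c * (tt cs T a * (tt cs T 2 * v0 (gg cs T)))) +
      v (-2) • (tt cs T c * (tt cs T b * (tt cs T 2 * v0 (gg cs T)))) +
      (v (-1) + v (-3)) • (tt cs T a * (tt cs T 2 * v0 (gg cs T))) +
      (v (-1) + v (-3)) • (tt cs T b * (tt cs T 2 * v0 (gg cs T))) +
      (v (-1) + v (-3)) • (tt cs T c * (tt cs T 2 * v0 (gg cs T))) +
      (3 * v (-2) + v (-4)) • (tt cs T 2 * v0 (gg cs T)) +
      (3 * v (-3) + v (-5)) • v0 (gg cs T) := by
  have e3 : v (-3) * v 1 = v (-2) := by rw [v_mul_v]; norm_num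
  have e4 : v (-2) * v 1 = v (-1) := by rw [v_mul_v]; norm_num
  have e5 : v (-1) * v (-1) = v (-2) := by rw [v_mul_v]; norm_num
  have e6 : v (-2) * v (-1) = v (-3) := by rw [v_mul_v]; norm_num
  have e8 : v (-4) * v (-1) = v (-5) := by rw [v_mul_v]; norm_num
  have e9 : v (-3) * v (-1) = v (-4) := by rw [v_mul_v]; norm_num
  rw [v1', ex4 hT ht']
  simp only [gg_mul, mul_add, add_mul, mul_smul_comm, tt_braid hT ht', tt_braid hT ht'.rot,
    tt_braid hT ht'.rot.rot, tt_sq hT, smul_add, smul_smul,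
    e3, e4, e5, e6, e8, e9, mul_sub]
  linear_combination (norm := module) (2 : A) • (e6 • v0 (gg cs T))

end Pool.Agent.Helper703.ST
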