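import Pool.Agent.Helper703.ST.Sign

set_option autoImplicit false

namespace Pool.Agent.Helper703.ST

/-- `1` on positive roots, `0` on negative roots -/
def eps (a b c : ℤ) : ℤ := if 0 < 3 * a + 2 * b + c then 1 else 0

lemma check_eps : ∀ a ∈ ([-1, 0, 1] : List ℤ), ∀ b ∈ ([-1, 0, 1] : List ℤ),
    ∀ c ∈ ([-1, 0, 1] : List ℤ), ∀ d ∈ ([-1, 0, 1] : List ℤ),
    a ^ 2 + b ^ 2 + c ^ 2 + d ^ 2 = 2 →
    (kn (-1, -1, 0, 0) a b c d + eps a b c = eps (-b) (-a) c + (a + b)) ∧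
    (kn (1, -1, 0, 0) a b c d + eps a b c = eps b a c) ∧
    (kn (0, 1, -1, 0) a b c d + eps a b c = eps a c b) ∧
    (kn (0, 0, 1, -1) a b c d + eps a b c = eps a b d) ∧
    (kn (0, 0, 1, 1) a b c d + eps a b c = eps a b (-d)) := by
  decide

lemma root_mem {a b c d : ℤ} (h : a ^ 2 + b ^ 2 + c ^ 2 + d ^ 2 = 2) :
    a ∈ ([-1, 0, 1] : List ℤ) ∧ b ∈ ([-1, 0, 1] : List ℤ) ∧ c ∈ ([-1, 0, 1] : List ℤ) ∧
      d ∈ ([-1, 0, 1] : List ℤ) :=
  ⟨bound (r := b ^ 2 + c ^ 2 + d ^ 2) (by linarith) (by positivity),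
    bound (r := a ^ 2 + c ^ 2 + d ^ 2) (by linarith) (by positivity),
    bound (r := a ^ 2 + b ^ 2 + d ^ 2) (by linarith) (by positivity),
    bound (r := a ^ 2 + b ^ 2 + c ^ 2) (by linarith) (by positivity)⟩

/-- the pairing with an integral vector -/
noncomputable def pr (x : Fin 4 → ℝ) (a b c d : ℤ) : ℝ := x 0 * a + x 1 * b + x 2 * c + x 3 * d

lemma pr_eq (x : Fin 4 → ℝ) (a b c d : ℤ) :
    ∑ j, x j * ((![a, b, c, d] : Fin 4 → ℤ) j : ℝ) = pr x a b c d := by
  rw [Fin.sum_univ_four]; rfl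

lemma base {x : Fin 4 → ℝ} (hx : InAlcove x) {a b c d : ℤ}
    (h : a ^ 2 + b ^ 2 + c ^ 2 + d ^ 2 = 2) :
    (eps a b c : ℝ) - 1 < pr x a b c d ∧ pr x a b c d < eps a b c := by
  obtain ⟨h1, h0⟩ := hx
  have k1 := h1 1 (by decide)
  have k2 := h1 2 (by decide)
  have k3 := h1 3 (by decide)
  have k4 := h1 4 (by decide)
  rw [sr0, pr_eq] at h0
  rw [sr1, pr_eq] at k1
  rw [sr2, pr_eq] at k2
  rw [sr3, pr_eq] at k3
  rw [sr4, pr_eq] at k4
  obtain ⟨ha, hb, hc, hd⟩ := root_mem h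
  simp only [List.mem_cons, List.not_mem_nil, or_false] at ha hb hc hd
  unfold pr at *
  unfold eps
  push_cast at k1 k2 k3 k4 h0
  rcases ha with rfl | rfl | rfl <;> rcases hb with rfl | rfl | rfl <;>
    rcases hc with rfl | rfl | rfl <;> rcases hd with rfl | rfl | rfl <;>
    first
      | (exfalso; norm_num at h; done)
      | (norm_num; constructor <;> linarith)

lemma pr_affRefl (x : Fin 4 → ℝ) (a b c d : ℤ) :
    pr (affRefl 0 x) a b c d = pr x (-b) (-a) c d + (a + b) ∧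
    pr (affRefl 1 x) a b c d = pr x b a c d ∧
    pr (affRefl 2 x) a b c d = pr x a c b d ∧
    pr (affRefl 3 x) a b c d = pr x a b d c ∧
    pr (affRefl 4 x) a b c d = pr x a b (-d) (-c) := by
  unfold pr affRefl
  simp only [sr0, sr1, sr2, sr3, sr4, Fin.sum_univ_four]
  refine ⟨?_, ?_, ?_, ?_, ?_⟩
  all_goals
    simp [Matrix.cons_val_two, Matrix.cons_val_three]
    ring

variable {W : Type*} [Group W] {cs : CoxeterSystem affD W} {k : W → (Fin 4 → ℤ) → ℤ}

lemma geom_word (hk : IsAlcoveForm cs k) {x : Fin 4 → ℝ} (hx : InAlcove x) (ω : List (Fin 5)) :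
    ∀ a b c d : ℤ, a ^ 2 + b ^ 2 + c ^ 2 + d ^ 2 = 2 →
    (k (ω.foldr (fun i w => w * cs.simple i) 1) ![a, b, c, d] : ℝ) + eps a b c - 1 <
      pr (ω.foldr (fun i y => affRefl i y) x) a b c d ∧
    pr (ω.foldr (fun i y => affRefl i y) x) a b c d <
      (k (ω.foldr (fun i w => w * cs.simple i) 1) ![a, b, c, d] : ℝ) + eps a b c := by
  induction ω with
  | nil =>
    intro a b c d h
    show (k 1 ![a, b, c, d] : ℝ) + eps a b c - 1 < pr x a b c d ∧
      pr x a b c d < (k 1 ![a, b, c, d] : ℝ) + eps a b c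
    rw [hk.one _ (isRoot_vec.2 h)]
    have := base hx h
    constructor <;> push_cast <;> linarith [this.1, this.2]
  | cons i ω ih =>
    intro a b c d h
    obtain ⟨ha, hb, hc, hd⟩ := root_mem h
    obtain ⟨c0, c1, c2, c3, c4⟩ := check_eps a ha b hb c hc d hd h
    obtain ⟨p0, p1, p2, p3, p4⟩ := pr_affRefl (ω.foldr (fun i y => affRefl i y) x) a b c d
    rw [List.foldr_cons, List.foldr_cons, hk.mul _ _ _ (isRoot_vec.2 h)]
    have c0' : (kn (-1, -1, 0, 0) a b c d : ℝ) + eps a b c = eps (-b) (-a) c + (a + b) := by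
      exact_mod_cast c0
    have c1' : (kn (1, -1, 0, 0) a b c d : ℝ) + eps a b c = eps b a c := by exact_mod_cast c1
    have c2' : (kn (0, 1, -1, 0) a b c d : ℝ) + eps a b c = eps a c b := by exact_mod_cast c2
    have c3' : (kn (0, 0, 1, -1) a b c d : ℝ) + eps a b c = eps a b d := by exact_mod_cast c3
    have c4' : (kn (0, 0, 1, 1) a b c d : ℝ) + eps a b c = eps a b (-d) := by exact_mod_cast c4
    fin_cases i
    · have := ih (-b) (-a) c d (by linarith)
      show ((k _ (refl 0 _) + kgen 0 _ : ℤ) : ℝ) + _ - 1 < pr (affRefl 0 _) a b c d ∧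
        pr (affRefl 0 _) a b c d < ((k _ (refl 0 _) + kgen 0 _ : ℤ) : ℝ) + _
      rw [refl0, kg0, p0]
      push_cast
      constructor <;> linarith [this.1, this.2]
    · have := ih b a c d (by linarith)
      show ((k _ (refl 1 _) + kgen 1 _ : ℤ) : ℝ) + _ - 1 < pr (affRefl 1 _) a b c d ∧
        pr (affRefl 1 _) a b c d < ((k _ (refl 1 _) + kgen 1 _ : ℤ) : ℝ) + _
      rw [refl1, kg1, p1]
      push_cast
      constructor <;> linarith [this.1, this.2]
    · have := ih a c b d (by linarith)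
      show ((k _ (refl 2 _) + kgen 2 _ : ℤ) : ℝ) + _ - 1 < pr (affRefl 2 _) a b c d ∧
        pr (affRefl 2 _) a b c d < ((k _ (refl 2 _) + kgen 2 _ : ℤ) : ℝ) + _
      rw [refl2, kg2, p2]
      push_cast
      constructor <;> linarith [this.1, this.2]
    · have := ih a b d c (by linarith)
      show ((k _ (refl 3 _) + kgen 3 _ : ℤ) : ℝ) + _ - 1 < pr (affRefl 3 _) a b c d ∧
        pr (affRefl 3 _) a b c d < ((k _ (refl 3 _) + kgen 3 _ : ℤ) : ℝ) + _
      rw [refl3, kg3, p3]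
      push_cast
      constructor <;> linarith [this.1, this.2]
    · have := ih a b (-d) (-c) (by linarith)
      show ((k _ (refl 4 _) + kgen 4 _ : ℤ) : ℝ) + _ - 1 < pr (affRefl 4 _) a b c d ∧
        pr (affRefl 4 _) a b c d < ((k _ (refl 4 _) + kgen 4 _ : ℤ) : ℝ) + _
      rw [refl4, kg4, p4]
      push_cast
      constructor <;> linarith [this.1, this.2]

lemma check_neg : ∀ a ∈ ([-1, 0, 1] : List ℤ), ∀ b ∈ ([-1, 0, 1] : List ℤ),
    ∀ c ∈ ([-1, 0, 1] : List ℤ), ∀ d ∈ ([-1, 0, 1] : List ℤ),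
    a ^ 2 + b ^ 2 + c ^ 2 + d ^ 2 = 2 →
    (kn (-1, -1, 0, 0) (-a) (-b) (-c) (-d) = - kn (-1, -1, 0, 0) a b c d) ∧
    (kn (1, -1, 0, 0) (-a) (-b) (-c) (-d) = - kn (1, -1, 0, 0) a b c d) ∧
    (kn (0, 1, -1, 0) (-a) (-b) (-c) (-d) = - kn (0, 1, -1, 0) a b c d) ∧
    (kn (0, 0, 1, -1) (-a) (-b) (-c) (-d) = - kn (0, 0, 1, -1) a b c d) ∧
    (kn (0, 0, 1, 1) (-a) (-b) (-c) (-d) = - kn (0, 0, 1, 1) a b c d) := by
  decide

lemma neg_word (hk : IsAlcoveForm cs k) (ω : List (Fin 5)) :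
    ∀ a b c d : ℤ, a ^ 2 + b ^ 2 + c ^ 2 + d ^ 2 = 2 →
    k (ω.foldr (fun i w => w * cs.simple i) 1) ![-a, -b, -c, -d] =
      - k (ω.foldr (fun i w => w * cs.simple i) 1) ![a, b, c, d] := by
  induction ω with
  | nil =>
    intro a b c d h
    show k 1 ![-a, -b, -c, -d] = - k 1 ![a, b, c, d]
    rw [hk.one _ (isRoot_vec.2 h), hk.one _ (isRoot_vec.2 (by linarith))]
    rfl
  | cons i ω ih =>
    intro a b c d h
    obtain ⟨ha, hb, hc, hd⟩ := root_mem h
    obtain ⟨c0, c1, c2, c3, c4⟩ := check_neg a ha b hb c hc d hd h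
    rw [List.foldr_cons, hk.mul _ _ _ (isRoot_vec.2 h),
      hk.mul _ _ _ (isRoot_vec.2 (by linarith))]
    fin_cases i
    · show k _ (refl 0 _) + kgen 0 _ = - (k _ (refl 0 _) + kgen 0 _)
      have := ih (-b) (-a) c d (by linarith)
      rw [refl0, refl0, kg0, kg0, c0, this]; ring
    · show k _ (refl 1 _) + kgen 1 _ = - (k _ (refl 1 _) + kgen 1 _)
      have := ih b a c d (by linarith)
      rw [refl1, refl1, kg1, kg1, c1, this]; ring
    · show k _ (refl 2 _) + kgen 2 _ = - (k _ (refl 2 _) + kgen 2 _)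
      have := ih a c b d (by linarith)
      rw [refl2, refl2, kg2, kg2, c2, this]; ring
    · show k _ (refl 3 _) + kgen 3 _ = - (k _ (refl 3 _) + kgen 3 _)
      have := ih a b d c (by linarith)
      rw [refl3, refl3, kg3, kg3, c3, this]; ring
    · show k _ (refl 4 _) + kgen 4 _ = - (k _ (refl 4 _) + kgen 4 _)
      have := ih a b (-d) (-c) (by linarith)
      rw [refl4, refl4, kg4, kg4, c4, this]; ring

lemma foldr_reverse_wordProd (ω : List (Fin 5)) :
    ω.reverse.foldr (fun i w => w * cs.simple i) 1 = cs.wordProd ω := by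
  rw [List.foldr_reverse]
  have : ∀ (ω : List (Fin 5)) (u : W), ω.foldl (fun w i => w * cs.simple i) u =
      u * cs.wordProd ω := by
    intro ω
    induction ω with
    | nil => intro u; simp
    | cons i ω ih => intro u; rw [List.foldl_cons, ih, cs.wordProd_cons, mul_assoc]
  rw [this, one_mul]

theorem isGeometric (hk : IsAlcoveForm cs k) : IsGeometric cs k := by
  refine ⟨?_, ?_⟩
  · intro w α hα
    obtain ⟨ω, rfl⟩ := cs.wordProd_surjective w
    rw [← foldr_reverse_wordProd]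
    rw [vec4 α] at hα ⊢
    rw [neg_vec]
    exact neg_word hk _ _ _ _ _ (isRoot_vec.1 hα)
  · intro ω x hx α hα
    obtain ⟨h1, h2⟩ := hα
    rw [vec4 α] at h1
    have := geom_word hk hx ω.reverse _ _ _ _ (isRoot_vec.1 h1)
    rw [foldr_reverse_wordProd, List.foldr_reverse] at this
    have e : (eps (α 0) (α 1) (α 2) : ℝ) = 1 := by
      unfold eps
      rw [if_pos h2]; norm_num
    rw [e, ← vec4 α] at this
    have e2 : ∑ j, (ω.foldl (fun y i => affRefl i y) x) j * (α j : ℝ) =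
        pr (ω.foldl (fun y i => affRefl i y) x) (α 0) (α 1) (α 2) (α 3) := by
      rw [← pr_eq, ← vec4 α]
    rw [e2]
    constructor
    · linarith [this.1]
    · exact this.2

end Pool.Agent.Helper703.ST
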