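import Pool.Agent.Helper703.ST.Defs
import Pool.Agent.Helper703.KL.Cox

set_option autoImplicit false

namespace Pool.Agent.Helper703.ST

open Pool.Agent.Helper703.Cox

/-- twice the negative of the bilinear form -/
def cI (n k : Fin 5) : ℤ := if n = k then -2 else if n = 2 ∨ k = 2 then 1 else 0

lemma affD_apply (i j : Fin 5) :
    affD i j = if i = j then 1 else if i = 2 ∨ j = 2 then 3 else 2 := rfl

lemma cc_affD (n k : Fin 5) : 2 * cc affD n k = (cI n k : ℝ) := by
  unfold cc cI
  rw [affD_apply]
  split_ifs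
  · simp
  · simp only [Nat.cast_ofNat, Real.cos_pi_div_three]; norm_num
  · simp

variable {W : Type*} [Group W] (cs : CoxeterSystem affD W)

/-- height of the root `w e_n` -/
noncomputable def ht (w : W) (n : Fin 5) : ℝ := ∑ l, geo cs w (ee n) l

variable {cs}

lemma ht_mul (w : W) (n k : Fin 5) :
    ht cs (w * cs.simple k) n = ht cs w n + (cI n k : ℝ) * ht cs w k := by
  rw [← cc_affD]
  unfold ht
  rw [map_mul, Module.End.mul_apply, geo_simple, sg_ee, map_add, map_smul]
  simp only [Pi.add_apply, Pi.smul_apply, smul_eq_mul, Finset.sum_add_distrib, Finset.mul_sum]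

lemma ht_one (n : Fin 5) : ht cs 1 n = 1 := by
  unfold ht
  rw [map_one]
  simp [ee]

lemma ht_neg_iff (w : W) (n : Fin 5) :
    ht cs w n < 0 ↔ cs.length (w * cs.simple n) < cs.length w := by
  constructor
  · intro h
    by_contra hcon
    have h1 : 0 ≤ geo cs w (ee n) := by
      rw [geo_nonneg_iff]
      have := cs.length_mul_simple_ne w n
      omega
    have h2 : 0 ≤ ht cs w n := Finset.sum_nonneg (fun l _ => h1 l)
    linarith
  · intro h
    have h1 := (geo_nonpos_iff cs w n).2 h
    have h2 : ∃ l, geo cs w (ee n) l ≠ 0 := by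
      by_contra hcon
      push Not at hcon
      exact geo_ee_ne_zero cs w n (funext hcon)
    obtain ⟨l, hl⟩ := h2
    exact Finset.sum_neg' (fun l _ => h1 l) ⟨l, Finset.mem_univ _, lt_of_le_of_ne (h1 l) hl⟩

lemma ht_pos_iff (w : W) (n : Fin 5) :
    0 < ht cs w n ↔ cs.length w < cs.length (w * cs.simple n) := by
  constructor
  · intro h
    by_contra hcon
    have h1 := cs.length_mul_simple_ne w n
    have := (ht_neg_iff (cs := cs) w n).2 (by omega)
    linarith
  · intro h
    have h1 := (geo_nonneg_iff cs w n).2 h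
    have h2 : ∃ l, geo cs w (ee n) l ≠ 0 := by
      by_contra hcon
      push Not at hcon
      exact geo_ee_ne_zero cs w n (funext hcon)
    obtain ⟨l, hl⟩ := h2
    exact Finset.sum_pos' (fun l _ => h1 l) ⟨l, Finset.mem_univ _, lt_of_le_of_ne (h1 l) hl.symm⟩

lemma ht_ne_zero (w : W) (n : Fin 5) : ht cs w n ≠ 0 := by
  have h1 := cs.length_mul_simple_ne w n
  rcases lt_or_gt_of_ne h1 with h | h
  · exact ((ht_neg_iff w n).2 h).ne
  · exact ((ht_pos_iff w n).2 h).ne'

/-- rewriting rule for a leaf step -/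
lemma cI_val (n k : Fin 5) : (cI n k : ℝ) =
    if n = k then -2 else if n = 2 ∨ k = 2 then 1 else 0 := by
  unfold cI
  split_ifs <;> simp

end Pool.Agent.Helper703.ST
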