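import Pool.Agent.Helper703.KL.Cells
import Pool.Agent.Helper703.ST.Model

set_option autoImplicit false

namespace Pool.Agent.Helper703.ST

open LaurentPolynomial Module Pool.Agent.Helper703.KL

/-- `v + v⁻¹` -/
noncomputable def dd : A := v 1 + v (-1)

section general

variable {B : Type*} {M : CoxeterMatrix B} {W : Type*} [Group W] (cs : CoxeterSystem M W)
variable {H : Type*} [Ring H] [Algebra A H] (T : Basis W A H)

/-- the Kazhdan-Lusztig generator -/
noncomputable def gg (i : B) : H := v (-1) • (T (cs.simple i) + 1)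

variable {cs} {T} {bar : H →+* H} {C : Basis W A H}

lemma theta_opL (i : B) (h : H) : theta (opL cs T) i h = gg cs T i * h := by
  rw [theta_apply, opL_apply, gg, smul_mul_assoc, add_mul, one_mul, smul_add]

lemma theta_opR (i : B) (h : H) : theta (opR cs T) i h = h * gg cs T i := by
  rw [theta_apply, opR_apply, gg, mul_smul_comm, mul_add, mul_one, smul_add]

lemma gg_sq (hT : IsHecke cs T) (i : B) : gg cs T i * gg cs T i = dd • gg cs T i := by
  rw [gg, smul_mul_assoc, mul_smul_comm, add_mul, mul_add, one_mul, mul_one, hT.sq, smul_smul,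
    smul_smul, dd, add_mul, v_mul_v, v_mul_v]
  have e1 : v (-2) * v 2 = 1 := by rw [v_mul_v]; simp
  have e2 : (v (1 + -1) : A) = 1 := by simp
  have e3 : (v (-1 + -1) : A) = v (-2) := by norm_num
  rw [e2, e3]
  linear_combination (norm := module) e1 • (T (cs.simple i) + 1)

lemma gg_bar (hT : IsHecke cs T) (hb : IsBar cs T bar) (i : B) :
    bar (gg cs T i) = gg cs T i := by
  have h := (klModL hT hb).bar_theta i 1
  rw [theta_opL, theta_opL, mul_one] at h
  have h2 : ((bar : H →+ H) 1) = 1 := map_one bar
  rw [h2, mul_one] at h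
  exact h

lemma T_bar (hT : IsHecke cs T) (i : B) :
    T (cs.simple i) = v 1 • gg cs T i - 1 := by
  rw [gg, smul_smul, v_mul_v]
  have e2 : (v (1 + -1) : A) = 1 := by simp
  rw [e2, one_smul, add_sub_cancel_right]

lemma gg_down (hT : IsHecke cs T) (hb : IsBar cs T bar) (hC : IsKLBasis cs T bar C) (i : B)
    (u : W) (hu : cs.length (u * cs.simple i) < cs.length u) :
    C u * gg cs T i = dd • C u := by
  rw [← theta_opR]; exact thetaR_down hT hb hC i u hu

/-- an eigenvector on the right is supported on elements with the given descent -/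
lemma supp_of_eigen (hT : IsHecke cs T) (hb : IsBar cs T bar) (hC : IsKLBasis cs T bar C) (i : B)
    (h : H) (he : h * gg cs T i = dd • h) (y : W) (hy : C.repr h y ≠ 0) :
    cs.length (y * cs.simple i) < cs.length y := by
  by_contra hcon
  have h1 := cs.length_mul_simple_ne y i
  have h2 := right_supp hT hb hC i h y (by omega)
  rw [theta_opR, he, map_smul, Finsupp.smul_apply, smul_eq_mul] at h2
  rcases mul_eq_zero.1 h2 with h3 | h3
  · have h4 := congrArg (fun p : A => p.coeff 1) h3
    simp only [dd, coeff_add, T_apply, coeff_zero] at h4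
    norm_num at h4
  · exact hy h3

end general

section d4

variable {W : Type*} [Group W] {cs : CoxeterSystem affD W}
variable {H : Type*} [Ring H] [Algebra A H] {T : Basis W A H} {bar : H →+* H} {C : Basis W A H}

lemma TT (hT : IsHecke cs T) (x : W) (i : Fin 5) (h : 0 < ht cs x i) :
    T x * T (cs.simple i) = T (x * cs.simple i) :=
  hT.mulR_lt _ x rfl i ((ht_pos_iff x i).1 h)

lemma ht_simple (i j : Fin 5) : ht cs (cs.simple i) j = 1 + (cI j i : ℝ) := by
  have h := ht_mul (cs := cs) 1 j i
  rw [one_mul, ht_one, ht_one, mul_one] at h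
  exact h

lemma simple_comm {i j : Fin 5} (h : affD i j = 2) :
    cs.simple i * cs.simple j = cs.simple j * cs.simple i := by
  have hrel := cs.simple_mul_simple_pow i j
  rw [h, pow_two] at hrel
  have := mul_eq_one_iff_eq_inv.1 hrel
  rw [mul_inv_rev, cs.inv_simple, cs.inv_simple] at this
  exact this

lemma simple_braid {i j : Fin 5} (h : affD i j = 3) :
    cs.simple i * cs.simple j * cs.simple i = cs.simple j * cs.simple i * cs.simple j := by
  have hrel := cs.simple_mul_simple_pow i j
  rw [h] at hrel
  have h2 : (cs.simple i * cs.simple j * cs.simple i) * (cs.simple j * cs.simple i * cs.simple j)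
      = 1 := by
    rw [← hrel]; simp only [pow_succ, pow_zero, one_mul, mul_assoc]
  have := mul_eq_one_iff_eq_inv.1 h2
  simp only [mul_inv_rev, cs.inv_simple] at this
  rw [this]; simp only [mul_assoc]

lemma cI_of_two_aux : ∀ i j : Fin 5, (if i = j then 1 else if i = 2 ∨ j = 2 then 3 else 2) = 2 →
    cI j i = 0 ∧ cI i j = 0 := by
  decide

lemma cI_of_three_aux : ∀ i j : Fin 5,
    (if i = j then 1 else if i = 2 ∨ j = 2 then 3 else 2) = 3 → cI j i = 1 ∧ cI i j = 1 := by
  decide

lemma cI_of_two (i j : Fin 5) (h : affD i j = 2) : cI j i = 0 ∧ cI i j = 0 := by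
  rw [affD_apply] at h
  exact cI_of_two_aux i j h

lemma cI_of_three (i j : Fin 5) (h : affD i j = 3) : cI j i = 1 ∧ cI i j = 1 := by
  rw [affD_apply] at h
  exact cI_of_three_aux i j h

lemma gg_comm (hT : IsHecke cs T) {i j : Fin 5} (h : affD i j = 2) :
    gg cs T i * gg cs T j = gg cs T j * gg cs T i := by
  obtain ⟨hij, hji⟩ := cI_of_two i j h
  have e : T (cs.simple i) * T (cs.simple j) = T (cs.simple j) * T (cs.simple i) := by
    rw [TT hT _ _ (by rw [ht_simple, hij]; norm_num), TT hT _ _ (by rw [ht_simple, hji]; norm_num),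
      simple_comm h]
  rw [gg, gg, smul_mul_assoc, mul_smul_comm, smul_mul_assoc, mul_smul_comm, add_mul, mul_add,
    one_mul, mul_one, add_mul, mul_add, one_mul, mul_one, e]
  module

lemma gg_braid (hT : IsHecke cs T) {i j : Fin 5} (h : affD i j = 3) :
    gg cs T i * gg cs T j * gg cs T i - gg cs T i =
      gg cs T j * gg cs T i * gg cs T j - gg cs T j := by
  have h' : affD j i = 3 := by rw [affD.symmetric]; exact h
  have key : ∀ {i j : Fin 5}, affD i j = 3 → T (cs.simple i) * T (cs.simple j) * T (cs.simple i)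
      = T (cs.simple i * cs.simple j * cs.simple i) := by
    intro i j h
    obtain ⟨h1, h2⟩ := cI_of_three i j h
    have h3 : cI i i = -2 := by unfold cI; rw [if_pos rfl]
    rw [TT hT _ _ (by rw [ht_simple, h1]; norm_num), TT hT _ _ (by
      rw [ht_mul, ht_simple, ht_simple, h1, h2, h3]; norm_num)]
  have e1 := key h
  have e2 := key h'
  have expand : ∀ a z : H, a * a = (v 2 - 1) • a + v 2 • (1 : H) →
      (v (-1) • (a + 1)) * (v (-1) • (z + 1)) * (v (-1) • (a + 1)) - v (-1) • (a + 1) =
      v (-3) • (a * z * a + a * z + z * a + a + z + 1) := by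
    intro a z ha
    have e3 : v (-1) * v (-1) * v (-1) = v (-3) := by rw [v_mul_v, v_mul_v]; norm_num
    have e4 : v (-3) * v 2 = v (-1) := by rw [v_mul_v]; norm_num
    have e5 : (a + 1) * (z + 1) * (a + 1) = a * z * a + a * a + z * a + a * z + (2 : A) • a + z
        + 1 := by
      rw [two_smul]
      noncomm_ring
    have e8 : (v (-1) • (a + 1)) * (v (-1) • (z + 1)) * (v (-1) • (a + 1)) =
        v (-3) • ((a + 1) * (z + 1) * (a + 1)) := by
      simp only [smul_mul_assoc, mul_smul_comm, smul_smul]
      rw [← e3]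
      simp only [mul_assoc]
    rw [e8, e5, ha]
    linear_combination (norm := module) e4 • (a + 1)
  rw [gg, gg, expand _ _ (hT.sq i), expand _ _ (hT.sq j), e1, e2, simple_braid h]
  module

end d4

end Pool.Agent.Helper703.ST
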