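import Pool.Agent.Helper703.ST.HRel
import Pool.Agent.Helper703.ST.Alg

set_option autoImplicit false

namespace Pool.Agent.Helper703.ST

open LaurentPolynomial Module Pool.Agent.Helper703.KL

variable {W : Type*} [Group W] (cs : CoxeterSystem affD W)

/-- `J = {0, 1, 3}` is contained in the right descent set -/
def InJ (z : W) : Prop := ht cs z 0 < 0 ∧ ht cs z 1 < 0 ∧ ht cs z 3 < 0

/-- lower elements -/
def Low (z : W) : Prop :=
  InJ cs z ∧ (ht cs z 2 < 0 ∨ ∃ a b c, Trip a b c ∧ ht cs z 2 + ht cs z a < 0)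

variable {cs}

lemma InJ.lt {z : W} (h : InJ cs z) {a b c : Fin 5} (ht' : Trip a b c) :
    ht cs z a < 0 ∧ ht cs z b < 0 ∧ ht cs z c < 0 := by
  obtain ⟨h1, h2, h3⟩ := h
  cases ht' <;> exact ⟨by assumption, by assumption, by assumption⟩

lemma InJ.of {z : W} {a b c : Fin 5} (ht' : Trip a b c)
    (h : ht cs z a < 0 ∧ ht cs z b < 0 ∧ ht cs z c < 0) : InJ cs z := by
  obtain ⟨h1, h2, h3⟩ := h
  cases ht' <;> exact ⟨by assumption, by assumption, by assumption⟩

lemma Low.of2 {z : W} (h : InJ cs z) (h2 : ht cs z 2 < 0) : Low cs z := ⟨h, Or.inl h2⟩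

lemma Low.of {z : W} {a b c : Fin 5} (h : InJ cs z) (ht' : Trip a b c)
    (h2 : ht cs z 2 + ht cs z a < 0) : Low cs z := ⟨h, Or.inr ⟨a, b, c, ht', h2⟩⟩

/-- the incidence numbers for a triple -/
structure TripI (a b c : Fin 5) : Prop where
  aa : cI a a = -2
  bb : cI b b = -2
  cc : cI c c = -2
  zz : cI 2 2 = -2
  ab : cI a b = 0
  ba : cI b a = 0
  ac : cI a c = 0
  ca : cI c a = 0
  bc : cI b c = 0
  cb : cI c b = 0
  az : cI a 2 = 1
  za : cI 2 a = 1
  bz : cI b 2 = 1
  zb : cI 2 b = 1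
  cz : cI c 2 = 1
  zc : cI 2 c = 1

lemma Trip.I {a b c : Fin 5} (h : Trip a b c) : TripI a b c := by
  cases h <;> constructor <;> rfl

lemma Trip.ne2 {a b c : Fin 5} (h : Trip a b c) : a ≠ 2 := by cases h <;> decide

lemma Trip.M3 {a b c : Fin 5} (h : Trip a b c) : affD a 2 = 3 := by
  rw [affD_apply]; cases h <;> rfl

section
variable {H : Type*} [Ring H] [Algebra A H] {T : Basis W A H} {bar : H →+* H} {C : Basis W A H}

lemma desc_ht (hT : IsHecke cs T) (hb : IsBar cs T bar) (hC : IsKLBasis cs T bar C)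
    {k : Fin 5} {x y : W} (h : C.repr (T (cs.simple k) * C x) y ≠ 0) (i : Fin 5)
    (hx : ht cs x i < 0) : ht cs y i < 0 := by
  rw [ht_neg_iff] at hx ⊢
  exact LStep.desc hT hb hC h i hx

lemma low_step (hT : IsHecke cs T) (hb : IsBar cs T bar) (hC : IsKLBasis cs T bar C)
    {k : Fin 5} {z y : W} (h : C.repr (T (cs.simple k) * C z) y ≠ 0) (hz : Low cs z) :
    Low cs y := by
  obtain ⟨hJ, hz⟩ := hz
  have hJy : InJ cs y := ⟨desc_ht hT hb hC h 0 hJ.1, desc_ht hT hb hC h 1 hJ.2.1,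
    desc_ht hT hb hC h 3 hJ.2.2⟩
  by_cases hz2 : ht cs z 2 < 0
  · exact Low.of2 hJy (desc_ht hT hb hC h 2 hz2)
  · have hz2' : 0 < ht cs z 2 := lt_of_le_of_ne (not_lt.1 hz2) (ht_ne_zero z 2).symm
    obtain ⟨a, b, c, ht', hza⟩ := hz.resolve_left hz2
    have I := ht'.I
    obtain ⟨ha, hb', hc⟩ := hJ.lt ht'
    obtain ⟨hya, hyb, hyc⟩ := hJy.lt ht'
    by_cases hy2 : ht cs y 2 < 0
    · exact Low.of2 hJy hy2
    have hy2' : 0 < ht cs y 2 := lt_of_le_of_ne (not_lt.1 hy2) (ht_ne_zero y 2).symm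
    by_cases hy3 : ht cs y 2 + ht cs y a < 0
    · exact Low.of hJy ht' hy3
    have hy4 : 0 < ht cs (y * cs.simple a) 2 := by
      refine lt_of_le_of_ne ?_ (ht_ne_zero _ 2).symm
      rw [ht_mul, I.za]; push_cast; linarith
    rw [ht_mul, I.za] at hy4
    push_cast at hy4
    have s1 : StarRel cs a 2 z (z * cs.simple a) := by
      refine ⟨Or.inl rfl, (ht_neg_iff z a).1 ha, (ht_pos_iff z 2).1 hz2', ?_, ?_⟩
      · rw [← ht_neg_iff, ht_mul, I.za]; push_cast; linarith
      · rw [← ht_pos_iff, ht_mul, I.aa]; push_cast; linarith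
    have s2 : StarRel cs a 2 y (y * cs.simple 2) := by
      refine ⟨Or.inr rfl, (ht_neg_iff y a).1 hya, (ht_pos_iff y 2).1 hy2', ?_, ?_⟩
      · rw [← ht_neg_iff, ht_mul, I.zz]; push_cast; linarith
      · rw [← ht_pos_iff, ht_mul, I.az]; push_cast; linarith
    rw [← star_transfer hT hb hC ht'.M3 s1 s2] at h
    have h1 := desc_ht hT hb hC h b (by rw [ht_mul, I.ba]; push_cast; linarith)
    rw [ht_mul, I.bz] at h1
    push_cast at h1
    exact Low.of hJy ht'.rot (by linarith)

variable (cs) (C) in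
/-- the submodule spanned by the `C_y` with `y` lower -/
def InLow : Submodule A H where
  carrier := {h | ∀ y, ¬ Low cs y → C.repr h y = 0}
  add_mem' := by
    intro x y hx hy w hw
    rw [map_add, Finsupp.add_apply, hx w hw, hy w hw, add_zero]
  zero_mem' := by intro w _; rw [map_zero]; rfl
  smul_mem' := by
    intro a x hx w hw
    rw [map_smul, Finsupp.smul_apply, hx w hw, smul_zero]

lemma mem_InLow {h : H} : h ∈ InLow cs C ↔ ∀ y, ¬ Low cs y → C.repr h y = 0 := Iff.rfl

lemma C_mem {y : W} (hy : Low cs y) : C y ∈ InLow cs C := by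
  classical
  intro w hw
  rw [Basis.repr_self, Finsupp.single_apply, if_neg]
  rintro rfl
  exact hw hy

omit [Group W] in
lemma expand_C (C : Basis W A H) (h : H) : h = ∑ z ∈ (C.repr h).support, C.repr h z • C z := by
  conv_lhs => rw [← C.linearCombination_repr h]
  rw [Finsupp.linearCombination_apply, Finsupp.sum]

/-- a linear map sends `h` into `S` if it sends every `C z` with `z` in the support into `S` -/
lemma map_mem (C : Basis W A H) (F : H →ₗ[A] H) (S : Submodule A H) (h : H)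
    (hF : ∀ z, C.repr h z ≠ 0 → F (C z) ∈ S) : F h ∈ S := by
  rw [expand_C C h, map_sum]
  apply Submodule.sum_mem
  intro z hz
  rw [map_smul]
  exact Submodule.smul_mem _ _ (hF z (Finsupp.mem_support_iff.1 hz))

lemma low_of_mem {h : H} (hh : h ∈ InLow cs C) {z : W} (hz : C.repr h z ≠ 0) : Low cs z := by
  by_contra hcon
  exact hz (hh z hcon)

lemma T_mul_mem (hT : IsHecke cs T) (hb : IsBar cs T bar) (hC : IsKLBasis cs T bar C) (k : Fin 5)
    {h : H} (hh : h ∈ InLow cs C) : T (cs.simple k) * h ∈ InLow cs C := by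
  apply map_mem C (LinearMap.mulLeft A (T (cs.simple k)))
  intro z hz y hy
  by_contra hcon
  exact hy (low_step hT hb hC hcon (low_of_mem hh hz))

lemma mul_mem (hT : IsHecke cs T) (hb : IsBar cs T bar) (hC : IsKLBasis cs T bar C) (g : H)
    {h : H} (hh : h ∈ InLow cs C) : g * h ∈ InLow cs C := by
  have key : ∀ n, ∀ w, cs.length w = n → ∀ h ∈ InLow cs C, T w * h ∈ InLow cs C := by
    intro n
    induction n with
    | zero =>
      intro w hw h hh
      rw [cs.length_eq_zero_iff] at hw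
      rw [hw, hT.one, one_mul]
      exact hh
    | succ n ih =>
      intro w hw h hh
      have hw1 : w ≠ 1 := by
        rintro rfl
        rw [cs.length_one] at hw
        omega
      obtain ⟨j, hj⟩ := cs.exists_leftDescent_of_ne_one hw1
      have hj' : cs.length (cs.simple j * w) + 1 = cs.length w := cs.isLeftDescent_iff.1 hj
      have e : T w = T (cs.simple j) * T (cs.simple j * w) := by
        rw [hT.mul_lt _ _ (by rw [simple_simple]; omega), simple_simple]
      rw [e, mul_assoc]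
      exact T_mul_mem hT hb hC j (ih _ (by omega) h hh)
  rw [expand_C T g, Finset.sum_mul]
  apply Submodule.sum_mem
  intro w _
  rw [smul_mul_assoc]
  exact Submodule.smul_mem _ _ (key _ w rfl h hh)

lemma dd_ne : (dd : A) ≠ 0 := by
  intro h
  have h4 := congrArg (fun p : A => p.coeff 1) h
  simp only [dd, coeff_add, T_apply, coeff_zero] at h4
  norm_num at h4

lemma cancel_mem {a : A} (ha : a ≠ 0) {h : H} (hh : a • h ∈ InLow cs C) : h ∈ InLow cs C := by
  intro y hy
  have := hh y hy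
  rw [map_smul, Finsupp.smul_apply, smul_eq_mul] at this
  exact (mul_eq_zero.1 this).resolve_left ha

/-- the structure of `C_y g_a` -/
lemma CyG (hT : IsHecke cs T) (hb : IsBar cs T bar) (hC : IsKLBasis cs T bar C) {a b c : Fin 5}
    (ht' : Trip a b c) {y : W} (h2 : ht cs y 2 < 0) (hyb : ht cs y b < 0) (hyc : ht cs y c < 0)
    (hya : 0 < ht cs y a) :
    C y * gg cs T a = C (y * cs.simple a) +
      ∑ z ∈ muSet cs (invB (nb cs T)) (fun w => C w⁻¹) a y⁻¹,
        mu (invB (nb cs T)) (fun w => C w⁻¹) z y⁻¹ • C z⁻¹ ∧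
    (∀ z ∈ muSet cs (invB (nb cs T)) (fun w => C w⁻¹) a y⁻¹,
      mu (invB (nb cs T)) (fun w => C w⁻¹) z y⁻¹ = 0 ∨
        (Low cs z⁻¹ ∧ cs.length z⁻¹ < cs.length y)) ∧ Low cs (y * cs.simple a) := by
  classical
  have I := ht'.I
  refine ⟨?_, ?_, ?_⟩
  · rw [← theta_opR]
    exact thetaR_up hT hb hC a y ((ht_pos_iff y a).1 hya)
  · intro z hz
    obtain ⟨hz1, hz2⟩ := mem_muSet.1 hz
    have hza : ht cs z⁻¹ a < 0 := by
      rw [ht_neg_iff, ← length_simple_mul_inv, cs.length_inv]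
      exact hz2
    have hlen : cs.length z⁻¹ < cs.length y := by
      rw [cs.length_inv]
      rcases (isKL_R hC).supp (klModR hT hb) y⁻¹ z hz1 with h | h
      · rw [h, inv_inv] at hza
        linarith
      · rwa [cs.length_inv] at h
    have key : ∀ i, ht cs y i < 0 → 0 < ht cs z⁻¹ i →
        mu (invB (nb cs T)) (fun w => C w⁻¹) z y⁻¹ = 0 ∨ z⁻¹ = y * cs.simple i := by
      intro i hi hzi
      have hmu := (isKL_R hC).mu_down (klModR hT hb) i y⁻¹ z
        (by rw [length_mul_inv_simple, cs.length_inv]; exact (ht_neg_iff y i).1 hi)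
        (by rw [length_simple_mul_inv, ← cs.length_inv z]; exact (ht_pos_iff _ i).1 hzi)
      by_cases h : cs.simple i * z = y⁻¹
      · right
        have : z = cs.simple i * y⁻¹ := by rw [← h, simple_simple]
        rw [this, mul_inv_rev, inv_inv, cs.inv_simple]
      · left
        rw [hmu, if_neg h]
    have hp : ∀ i, ¬ ht cs z⁻¹ i < 0 → 0 < ht cs z⁻¹ i := fun i h =>
      lt_of_le_of_ne (not_lt.1 h) (ht_ne_zero _ i).symm
    by_cases h0 : mu (invB (nb cs T)) (fun w => C w⁻¹) z y⁻¹ = 0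
    · exact Or.inl h0
    right
    refine ⟨?_, hlen⟩
    have hzb : ht cs z⁻¹ b < 0 := by
      by_contra hcon
      have h3 := (key b hyb (hp b hcon)).resolve_left h0
      rw [h3, ht_mul, I.ab] at hza
      push_cast at hza
      linarith
    have hzc : ht cs z⁻¹ c < 0 := by
      by_contra hcon
      have h3 := (key c hyc (hp c hcon)).resolve_left h0
      rw [h3, ht_mul, I.ac] at hza
      push_cast at hza
      linarith
    have hJ : InJ cs z⁻¹ := InJ.of ht' ⟨hza, hzb, hzc⟩
    by_cases hz2 : ht cs z⁻¹ 2 < 0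
    · exact Low.of2 hJ hz2
    · have h3 := (key 2 h2 (hp 2 hz2)).resolve_left h0
      apply Low.of hJ ht'.rot
      rw [h3, ht_mul, ht_mul, I.zz, I.bz]
      push_cast
      linarith
  · apply Low.of (InJ.of ht' ⟨?_, ?_, ?_⟩) ht'
    · rw [ht_mul, ht_mul, I.za, I.aa]; push_cast; linarith
    · rw [ht_mul, I.aa]; push_cast; linarith
    · rw [ht_mul, I.ba]; push_cast; linarith
    · rw [ht_mul, I.ca]; push_cast; linarith

lemma CyG_mem (hT : IsHecke cs T) (hb : IsBar cs T bar) (hC : IsKLBasis cs T bar C)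
    {a b c : Fin 5} (ht' : Trip a b c) {y : W} (h2 : ht cs y 2 < 0) (hyb : ht cs y b < 0)
    (hyc : ht cs y c < 0) : C y * gg cs T a ∈ InLow cs C := by
  by_cases hya : ht cs y a < 0
  · rw [gg_down hT hb hC a y ((ht_neg_iff y a).1 hya)]
    exact Submodule.smul_mem _ _ (C_mem (Low.of2 (InJ.of ht' ⟨hya, hyb, hyc⟩) h2))
  · obtain ⟨e1, e2, e3⟩ := CyG hT hb hC ht' h2 hyb hyc
      (lt_of_le_of_ne (not_lt.1 hya) (ht_ne_zero _ a).symm)
    rw [e1]
    refine Submodule.add_mem _ (C_mem e3) (Submodule.sum_mem _ ?_)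
    intro z hz
    rcases e2 z hz with h | h
    · rw [h, zero_smul]; exact Submodule.zero_mem _
    · rw [← Int.cast_smul_eq_zsmul A]
      exact Submodule.smul_mem _ _ (C_mem h.1)

/-- the relations hold for the Kazhdan-Lusztig generators -/
lemma hD4 (hT : IsHecke cs T) : D4 dd (gg cs T) where
  sq := gg_sq hT
  comm := by
    intro i j hi hj
    by_cases h : i = j
    · rw [h]
    · apply gg_comm hT
      rw [affD_apply, if_neg h, if_neg (by rintro (h | h) <;> contradiction)]
  braid := by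
    intro i hi
    have := gg_braid hT (i := 2) (j := i) (by
      rw [affD_apply, if_neg (Ne.symm hi), if_pos (Or.inl rfl)])
    rw [sub_eq_iff_eq_add] at this
    rw [this]

lemma ee_supp (hT : IsHecke cs T) (hb : IsBar cs T bar) (hC : IsKLBasis cs T bar C)
    {a b c : Fin 5} (ht' : Trip a b c) {y : W} (hy : C.repr (ee' dd (gg cs T) b c) y ≠ 0) :
    ht cs y 2 < 0 ∧ ht cs y b < 0 ∧ ht cs y c < 0 := by
  have hD := hD4 hT
  simp only [ht_neg_iff]
  refine ⟨supp_of_eigen hT hb hC 2 _ (hD.ee_2 ht'.rot.ne2 ht'.rot.rot.ne2) y hy,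
    supp_of_eigen hT hb hC b _ (hD.ee_b ht') y hy, supp_of_eigen hT hb hC c _ hD.ee_c y hy⟩

lemma nn_mem (hT : IsHecke cs T) (hb : IsBar cs T bar) (hC : IsKLBasis cs T bar C)
    {a b c : Fin 5} (ht' : Trip a b c) : nn dd (gg cs T) b c ∈ InLow cs C := by
  rw [(hD4 hT).nn_eq ht']
  apply map_mem C (LinearMap.mulRight A (gg cs T a))
  intro z hz
  obtain ⟨h2, h3, h4⟩ := ee_supp hT hb hC ht' hz
  exact CyG_mem hT hb hC ht' h2 h3 h4

lemma nu_mem (hT : IsHecke cs T) (hb : IsBar cs T bar) (hC : IsKLBasis cs T bar C)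
    {a b c : Fin 5} (ht' : Trip a b c) : nu dd (gg cs T) a b c ∈ InLow cs C := by
  unfold nu
  have h1 := nn_mem hT hb hC ht'
  have h2 := nn_mem hT hb hC ht'.rot.rot
  have h3 := nn_mem hT hb hC (ht'.swap)
  exact Submodule.sub_mem _ (Submodule.add_mem _ (Submodule.add_mem _
    (mul_mem hT hb hC _ (mul_mem hT hb hC _ h1)) h2) h3) h1

lemma nn_rho_mem (hT : IsHecke cs T) (hb : IsBar cs T bar) (hC : IsKLBasis cs T bar C)
    {a b c : Fin 5} (ht' : Trip a b c) :
    nn dd (gg cs T) b c * rho dd (gg cs T) ∈ InLow cs C := by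
  rw [(hD4 hT).nn_rho ht'.rot]
  exact Submodule.sub_mem _ (Submodule.sub_mem _ (Submodule.add_mem _ (nn_mem hT hb hC ht')
    (mul_mem hT hb hC _ (mul_mem hT hb hC _ (nu_mem hT hb hC ht'.rot))))
    (nu_mem hT hb hC ht'.rot)) (nu_mem hT hb hC ht'.rot.swap)

/-- the eigenvalue of `ee'` -/
noncomputable def cst : A := dd ^ 6 - 3 * dd ^ 4 + 2 * dd ^ 2

lemma cst_ne : cst ≠ 0 := by
  intro h
  have h1 := congrArg (LaurentPolynomial.eval₂ (Int.castRingHom ℚ)
    (Units.mk0 (2 : ℚ) (by norm_num))) h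
  simp only [cst, dd, map_add, map_sub, map_mul, map_pow, eval₂_T, map_ofNat, map_zero] at h1
  norm_num at h1

lemma C_ee (hT : IsHecke cs T) (hb : IsBar cs T bar) (hC : IsKLBasis cs T bar C)
    {b c : Fin 5} {y : W} (h2 : ht cs y 2 < 0) (hyb : ht cs y b < 0) (hyc : ht cs y c < 0) :
    C y * ee' dd (gg cs T) b c = cst • C y := by
  rw [ht_neg_iff] at h2 hyb hyc
  have e2 := gg_down hT hb hC 2 y h2
  have eb := gg_down hT hb hC b y hyb
  have ec := gg_down hT hb hC c y hyc
  unfold ee' cst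
  simp only [mul_add, mul_sub, add_mul, sub_mul, mul_smul_comm, smul_mul_assoc, one_mul,
    ← mul_assoc, e2, eb, ec, smul_smul]
  module

lemma CyG_rho (hT : IsHecke cs T) (hb : IsBar cs T bar) (hC : IsKLBasis cs T bar C)
    {a b c : Fin 5} (ht' : Trip a b c) {y : W} (h2 : ht cs y 2 < 0) (hyb : ht cs y b < 0)
    (hyc : ht cs y c < 0) : C y * gg cs T a * rho dd (gg cs T) ∈ InLow cs C := by
  apply cancel_mem cst_ne
  have e := mul_mem hT hb hC (C y) (nn_rho_mem hT hb hC ht')
  rw [(hD4 hT).nn_eq ht', ← mul_assoc, ← mul_assoc, C_ee hT hb hC h2 hyb hyc,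
    smul_mul_assoc, smul_mul_assoc] at e
  exact e

lemma low_rho (hT : IsHecke cs T) (hb : IsBar cs T bar) (hC : IsKLBasis cs T bar C) (n : ℕ) :
    ∀ z : W, cs.length z = n → Low cs z → C z * rho dd (gg cs T) ∈ InLow cs C := by
  induction n using Nat.strong_induction_on with
  | _ n ih =>
    intro z hn hz
    obtain ⟨hJ, hz'⟩ := hz
    by_cases hz2 : ht cs z 2 < 0
    · have h1 := CyG_rho hT hb hC Trip.t1 hz2 hJ.2.1 hJ.2.2
      rw [gg_down hT hb hC 0 z ((ht_neg_iff z 0).1 hJ.1), smul_mul_assoc] at h1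
      exact cancel_mem dd_ne h1
    · obtain ⟨a, b, c, ht', hza⟩ := hz'.resolve_left hz2
      have I := ht'.I
      have hz2' : 0 < ht cs z 2 := lt_of_le_of_ne (not_lt.1 hz2) (ht_ne_zero z 2).symm
      obtain ⟨h1, h2, h3⟩ := hJ.lt ht'
      have y2 : ht cs (z * cs.simple a) 2 < 0 := by rw [ht_mul, I.za]; push_cast; linarith
      have ya : 0 < ht cs (z * cs.simple a) a := by rw [ht_mul, I.aa]; push_cast; linarith
      have yb : ht cs (z * cs.simple a) b < 0 := by rw [ht_mul, I.ba]; push_cast; linarith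
      have yc : ht cs (z * cs.simple a) c < 0 := by rw [ht_mul, I.ca]; push_cast; linarith
      obtain ⟨e1, e2, _⟩ := CyG hT hb hC ht' y2 yb yc ya
      have e3 := CyG_rho hT hb hC ht' y2 yb yc
      rw [cs.simple_mul_simple_cancel_right] at e1
      rw [e1, add_mul, Finset.sum_mul] at e3
      have hlen : cs.length (z * cs.simple a) < cs.length z := (ht_neg_iff z a).1 h1
      have e4 : ∑ x ∈ muSet cs (invB (nb cs T)) (fun w => C w⁻¹) a (z * cs.simple a)⁻¹,
          (mu (invB (nb cs T)) (fun w => C w⁻¹) x (z * cs.simple a)⁻¹ • C x⁻¹) *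
            rho dd (gg cs T) ∈ InLow cs C := by
        apply Submodule.sum_mem
        intro x hx
        rcases e2 x hx with h | h
        · rw [h, zero_smul, zero_mul]; exact Submodule.zero_mem _
        · rw [← Int.cast_smul_eq_zsmul A, smul_mul_assoc]
          exact Submodule.smul_mem _ _ (ih _ (by omega) _ rfl h.1)
      have e5 := Submodule.sub_mem _ e3 e4
      rwa [add_sub_cancel_right] at e5

/-- right multiplication by `rho` preserves `InLow` -/
lemma mem_rho (hT : IsHecke cs T) (hb : IsBar cs T bar) (hC : IsKLBasis cs T bar C) {h : H}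
    (hh : h ∈ InLow cs C) : h * rho dd (gg cs T) ∈ InLow cs C := by
  apply map_mem C (LinearMap.mulRight A (rho dd (gg cs T)))
  intro z hz
  exact low_rho hT hb hC _ z rfl (low_of_mem hh hz)

end

end Pool.Agent.Helper703.ST
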