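import Pool.Agent.Helper703.ST.Sign

set_option autoImplicit false

namespace Pool.Agent.Helper703.ST

/-- functions on the lattice -/
abbrev FF : Type := (Fin 4 → ℤ) → ℤ

/-- the operator of `s_i` -/
def opA (i : Fin 5) (f : FF) : FF := fun α => f (refl i α) + kgen i α

lemma refl_refl (i : Fin 5) (α : Fin 4 → ℤ) : refl i (refl i α) = α := by
  rw [vec4 α]
  fin_cases i
  · show refl 0 (refl 0 _) = _
    rw [refl0, refl0]; simp
  · show refl 1 (refl 1 _) = _
    rw [refl1, refl1]
  · show refl 2 (refl 2 _) = _
    rw [refl2, refl2]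
  · show refl 3 (refl 3 _) = _
    rw [refl3, refl3]
  · show refl 4 (refl 4 _) = _
    rw [refl4, refl4]; simp

lemma opA_sq (i : Fin 5) (f : FF) : opA i (opA i f) = f := by
  funext α
  show f (refl i (refl i α)) + kgen i (refl i α) + kgen i α = f α
  rw [refl_refl, add_assoc]
  have : kgen i (refl i α) + kgen i α = 0 := by
    rw [vec4 α]
    fin_cases i
    · show kgen 0 (refl 0 _) + kgen 0 _ = 0
      rw [refl0, kg0, kg0]; simp only [kn]; split_ifs <;> omega
    · show kgen 1 (refl 1 _) + kgen 1 _ = 0
      rw [refl1, kg1, kg1]; simp only [kn]; split_ifs <;> omega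
    · show kgen 2 (refl 2 _) + kgen 2 _ = 0
      rw [refl2, kg2, kg2]; simp only [kn]; split_ifs <;> omega
    · show kgen 3 (refl 3 _) + kgen 3 _ = 0
      rw [refl3, kg3, kg3]; simp only [kn]; split_ifs <;> omega
    · show kgen 4 (refl 4 _) + kgen 4 _ = 0
      rw [refl4, kg4, kg4]; simp only [kn]; split_ifs <;> omega
  rw [this, add_zero]

/-- commuting operators -/
def Com (i j : Fin 5) : Prop := ∀ f : FF, opA i (opA j f) = opA j (opA i f)

/-- braided operators -/
def Bra (i j : Fin 5) : Prop :=
  ∀ f : FF, opA i (opA j (opA i f)) = opA j (opA i (opA j f))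

lemma Com.symm {i j : Fin 5} (h : Com i j) : Com j i := fun f => (h f).symm
lemma Bra.symm {i j : Fin 5} (h : Bra i j) : Bra j i := fun f => (h f).symm

lemma com_of {i j : Fin 5}
    (h1 : ∀ a b c d : ℤ, refl j (refl i ![a, b, c, d]) = refl i (refl j ![a, b, c, d]))
    (h2 : ∀ a b c d : ℤ, kgen j (refl i ![a, b, c, d]) + kgen i ![a, b, c, d] =
      kgen i (refl j ![a, b, c, d]) + kgen j ![a, b, c, d]) : Com i j := by
  intro f
  funext α
  show f (refl j (refl i α)) + kgen j (refl i α) + kgen i α =
    f (refl i (refl j α)) + kgen i (refl j α) + kgen j α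
  rw [vec4 α, h1, add_assoc, add_assoc, h2]

lemma bra_of {i j : Fin 5}
    (h1 : ∀ a b c d : ℤ, refl i (refl j (refl i ![a, b, c, d])) =
      refl j (refl i (refl j ![a, b, c, d])))
    (h2 : ∀ a b c d : ℤ, kgen i (refl j (refl i ![a, b, c, d])) = kgen j ![a, b, c, d])
    (h3 : ∀ a b c d : ℤ, kgen j (refl i (refl j ![a, b, c, d])) = kgen i ![a, b, c, d])
    (h4 : ∀ a b c d : ℤ, kgen j (refl i ![a, b, c, d]) = kgen i (refl j ![a, b, c, d])) :
    Bra i j := by
  intro f
  funext α
  show f (refl i (refl j (refl i α))) + kgen i (refl j (refl i α)) + kgen j (refl i α)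
    + kgen i α = f (refl j (refl i (refl j α))) + kgen j (refl i (refl j α)) +
    kgen i (refl j α) + kgen j α
  rw [vec4 α, h1, h2, h3, h4]
  ring

lemma com01 : Com 0 1 := by
  apply com_of <;> intro a b c d
  · rw [refl0, refl1, refl1, refl0]
  · rw [refl0, refl1]; simp only [kg0, kg1]; simp only [kn]; split_ifs <;> omega
lemma com03 : Com 0 3 := by
  apply com_of <;> intro a b c d
  · rw [refl0, refl3, refl3, refl0]
  · rw [refl0, refl3]; simp only [kg0, kg3]; simp only [kn]; split_ifs <;> omega
lemma com04 : Com 0 4 := by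
  apply com_of <;> intro a b c d
  · rw [refl0, refl4, refl4, refl0]
  · rw [refl0, refl4]; simp only [kg0, kg4]; simp only [kn]; split_ifs <;> omega
lemma com13 : Com 1 3 := by
  apply com_of <;> intro a b c d
  · rw [refl1, refl3, refl3, refl1]
  · rw [refl1, refl3]; simp only [kg1, kg3]; simp only [kn]; split_ifs <;> omega
lemma com14 : Com 1 4 := by
  apply com_of <;> intro a b c d
  · rw [refl1, refl4, refl4, refl1]
  · rw [refl1, refl4]; simp only [kg1, kg4]; simp only [kn]; split_ifs <;> omega
lemma com34 : Com 3 4 := by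
  apply com_of <;> intro a b c d
  · rw [refl3, refl4, refl4, refl3]
  · rw [refl3, refl4]; simp only [kg3, kg4]; simp only [kn]; split_ifs <;> omega

lemma bra02 : Bra 0 2 := by
  apply bra_of <;> intro a b c d
  · simp only [refl0, refl2, neg_neg]
  · simp only [refl0, refl2, kg0, kg2, kn]; split_ifs <;> omega
  · simp only [refl0, refl2, kg0, kg2, kn]; split_ifs <;> omega
  · simp only [refl0, refl2, kg0, kg2, kn]; split_ifs <;> omega
lemma bra12 : Bra 1 2 := by
  apply bra_of <;> intro a b c d
  · simp only [refl1, refl2]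
  · simp only [refl1, refl2, kg1, kg2, kn]; split_ifs <;> omega
  · simp only [refl1, refl2, kg1, kg2, kn]; split_ifs <;> omega
  · simp only [refl1, refl2, kg1, kg2, kn]; split_ifs <;> omega
lemma bra32 : Bra 3 2 := by
  apply bra_of <;> intro a b c d
  · simp only [refl3, refl2]
  · simp only [refl3, refl2, kg3, kg2, kn]; split_ifs <;> omega
  · simp only [refl3, refl2, kg3, kg2, kn]; split_ifs <;> omega
  · simp only [refl3, refl2, kg3, kg2, kn]; split_ifs <;> omega
lemma bra42 : Bra 4 2 := by
  apply bra_of <;> intro a b c d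
  · simp only [refl4, refl2, neg_neg]
  · simp only [refl4, refl2, kg4, kg2, kn]; split_ifs <;> omega
  · simp only [refl4, refl2, kg4, kg2, kn]; split_ifs <;> omega
  · simp only [refl4, refl2, kg4, kg2, kn]; split_ifs <;> omega

/-- the operator as a permutation -/
def opP (i : Fin 5) : Equiv.Perm FF := ⟨opA i, opA i, opA_sq i, opA_sq i⟩

lemma opP_sq (i : Fin 5) : opP i * opP i = 1 := Equiv.ext (opA_sq i)

lemma pow2_of_com {i j : Fin 5} (h : Com i j) : (opP i * opP j) ^ 2 = 1 := by
  have h1 : opP i * opP j = opP j * opP i := Equiv.ext h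
  calc (opP i * opP j) ^ 2 = opP i * opP j * (opP i * opP j) := pow_two _
    _ = opP i * opP j * (opP j * opP i) := by rw [h1]
    _ = opP i * (opP j * opP j) * opP i := by simp only [mul_assoc]
    _ = 1 := by rw [opP_sq, mul_one, opP_sq]

lemma pow3_of_bra {i j : Fin 5} (h : Bra i j) : (opP i * opP j) ^ 3 = 1 := by
  have h1 : opP i * (opP j * opP i) = opP j * (opP i * opP j) := Equiv.ext h
  calc (opP i * opP j) ^ 3 = opP i * (opP j * opP i) * (opP j * (opP i * opP j)) := by
        simp only [pow_succ, pow_zero, one_mul, mul_assoc]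
    _ = opP j * (opP i * opP j) * (opP j * (opP i * opP j)) := by rw [h1]
    _ = opP j * opP i * (opP j * opP j) * opP i * opP j := by simp only [mul_assoc]
    _ = 1 := by
      rw [opP_sq, mul_one, mul_assoc (opP j) (opP i), opP_sq, mul_one, opP_sq]

lemma liftable : affD.IsLiftable opP := by
  intro i j
  show (opP i * opP j) ^ (if i = j then 1 else if i = 2 ∨ j = 2 then 3 else 2) = 1
  fin_cases i <;> fin_cases j
  · exact (pow_one _).trans (opP_sq 0)
  · exact pow2_of_com com01
  · exact pow3_of_bra bra02
  · exact pow2_of_com com03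
  · exact pow2_of_com com04
  · exact pow2_of_com com01.symm
  · exact (pow_one _).trans (opP_sq 1)
  · exact pow3_of_bra bra12
  · exact pow2_of_com com13
  · exact pow2_of_com com14
  · exact pow3_of_bra bra02.symm
  · exact pow3_of_bra bra12.symm
  · exact (pow_one _).trans (opP_sq 2)
  · exact pow3_of_bra bra32.symm
  · exact pow3_of_bra bra42.symm
  · exact pow2_of_com com03.symm
  · exact pow2_of_com com13.symm
  · exact pow3_of_bra bra32
  · exact (pow_one _).trans (opP_sq 3)
  · exact pow2_of_com com34
  · exact pow2_of_com com04.symm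
  · exact pow2_of_com com14.symm
  · exact pow3_of_bra bra42
  · exact pow2_of_com com34.symm
  · exact (pow_one _).trans (opP_sq 4)

variable {W : Type*} [Group W] (cs : CoxeterSystem affD W)

/-- the alcove form -/
noncomputable def kform (w : W) : FF := cs.lift ⟨opP, liftable⟩ w⁻¹ 0

theorem kform_isAlcoveForm : IsAlcoveForm cs (kform cs) where
  one := by
    intro α _
    unfold kform
    rw [inv_one, map_one]
    rfl
  mul := by
    intro w i α _
    unfold kform
    rw [mul_inv_rev, cs.inv_simple, map_mul, cs.lift_apply_simple liftable]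
    rfl

end Pool.Agent.Helper703.ST
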