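import Pool.Agent.Helper703.ST.Claim3
import Pool.Agent.Helper703.ST.SignEx

set_option autoImplicit false

namespace Pool.Agent.Helper703.ST

open LaurentPolynomial Module Pool.Agent.Helper703.KL

variable {W : Type*} [Group W] {cs : CoxeterSystem affD W}
variable {H : Type*} [Ring H] [Algebra A H] {T : Basis W A H} {bar : H →+* H} {C : Basis W A H}

lemma exists_star (x : W) (h2 : cs.length (x * cs.simple 2) < cs.length x)
    (h0 : cs.length x < cs.length (x * cs.simple 0)) : ∃ x', StarRel cs 2 0 x x' := by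
  have J := Trip.t1.I.all
  have k2 := (ht_neg_iff x 2).2 h2
  have k0 := (ht_pos_iff x 0).2 h0
  have hne : ht cs x 0 + ht cs x 2 ≠ 0 := by
    have : ht cs x 0 + ht cs x 2 = ht cs (x * cs.simple 2) 0 := by
      simp only [ht_mul, J]; push_cast; ring
    rw [this]
    exact ht_ne_zero _ _
  rcases lt_or_gt_of_ne hne with h | h
  · refine ⟨x * cs.simple 2, Or.inl rfl, h2, h0, ?_, ?_⟩
    · rw [← ht_neg_iff]; simp only [ht_mul, J]; push_cast; linarith
    · rw [← ht_pos_iff]; simp only [ht_mul, J]; push_cast; linarith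
  · refine ⟨x * cs.simple 0, Or.inr rfl, h2, h0, ?_, ?_⟩
    · rw [← ht_neg_iff]; simp only [ht_mul, J]; push_cast; linarith
    · rw [← ht_pos_iff]; simp only [ht_mul, J]; push_cast; linarith

lemma star_g {x : W} (hx : PosK cs x 0 1 3) :
    StarRel cs 2 0 (x * gp cs * cs.simple 2) (x * gp cs) := by
  have J := Trip.t1.I.all
  obtain ⟨p1, p2, p3, p4⟩ := hx
  have e : x * gp cs = x * cs.simple 3 * cs.simple 1 * cs.simple 0 * cs.simple 2 *
      cs.simple 0 * cs.simple 1 * cs.simple 3 := by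
    unfold gp wJ
    simp only [mul_assoc]
  refine ⟨Or.inl (cs.simple_mul_simple_cancel_right 2).symm, ?_, ?_, ?_, ?_⟩
  · rw [← ht_neg_iff, e]; simp only [ht_mul, J]; push_cast; linarith
  · rw [← ht_pos_iff, e]; simp only [ht_mul, J]; push_cast; linarith
  · rw [← ht_neg_iff, e]; simp only [ht_mul, J]; push_cast; linarith
  · rw [← ht_pos_iff, e]; simp only [ht_mul, J]; push_cast; linarith

theorem not_LEq (hT : IsHecke cs T) (hb : IsBar cs T bar) (hC : IsKLBasis cs T bar C) :
    ¬ LEq cs T C (gp cs * cs.simple 2) (cs.simple 4 * gp cs * cs.simple 2) := by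
  intro h
  apply not_LLe hT hb hC
  have hm : affD 2 0 = 3 := by rw [affD_apply]; rfl
  have s1 := star_g (cs := cs) posK_one
  rw [one_mul] at s1
  exact (LEq.star hT hb hC hm (fun x => exists_star x) h (star_g posK_s4) s1).1

lemma w1_eq : w1.foldr (fun i w => w * cs.simple i) 1 = gp cs * cs.simple 2 := by
  unfold gp wJ w1
  simp only [List.foldr, one_mul, mul_assoc]

lemma w2_eq : w2.foldr (fun i w => w * cs.simple i) 1 = cs.simple 4 * gp cs * cs.simple 2 := by
  unfold gp wJ w2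
  simp only [List.foldr, one_mul, mul_assoc]

theorem main (hT : IsHecke cs T) (hb : IsBar cs T bar) (hC : IsKLBasis cs T bar C)
    {k : W → (Fin 4 → ℤ) → ℤ} (hk : IsAlcoveForm cs k) :
    ∃ Γ X : Set W, IsLeftCell cs T C Γ ∧ IsSignType k X ∧ (X ∩ Γ).Nonempty ∧ ¬ X ⊆ Γ := by
  refine ⟨_, _, ⟨cs.simple 4 * gp cs * cs.simple 2, rfl⟩,
    ⟨cs.simple 4 * gp cs * cs.simple 2, rfl⟩, ⟨cs.simple 4 * gp cs * cs.simple 2, ?_, ?_⟩, ?_⟩
  · intro α _; rfl
  · exact LEq.refl _
  · intro h
    have h1 := sameSign hk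
    rw [w1_eq, w2_eq] at h1
    exact not_LEq hT hb hC (h h1)

end Pool.Agent.Helper703.ST
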