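import Pool.Agent.Helper703.ST.Defs

set_option autoImplicit false

namespace Pool.Agent.Helper703.ST

lemma vec4 (α : Fin 4 → ℤ) : α = ![α 0, α 1, α 2, α 3] := by
  ext i; fin_cases i <;> rfl

lemma vec_eq {a b c d a' b' c' d' : ℤ} :
    ((![a, b, c, d] : Fin 4 → ℤ) = ![a', b', c', d']) ↔ a = a' ∧ b = b' ∧ c = c' ∧ d = d' := by
  constructor
  · intro h
    exact ⟨congrFun h 0, congrFun h 1, congrFun h 2, congrFun h 3⟩
  · rintro ⟨rfl, rfl, rfl, rfl⟩; rfl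

lemma neg_vec {a b c d : ℤ} : -(![a, b, c, d] : Fin 4 → ℤ) = ![-a, -b, -c, -d] := by
  ext i; fin_cases i <;> rfl

lemma sr0 : simpleRoot 0 = ![-1, -1, 0, 0] := rfl
lemma sr1 : simpleRoot 1 = ![1, -1, 0, 0] := rfl
lemma sr2 : simpleRoot 2 = ![0, 1, -1, 0] := rfl
lemma sr3 : simpleRoot 3 = ![0, 0, 1, -1] := rfl
lemma sr4 : simpleRoot 4 = ![0, 0, 1, 1] := rfl

lemma refl0 (a b c d : ℤ) : refl 0 ![a, b, c, d] = ![-b, -a, c, d] := by
  ext l; fin_cases l <;> simp [refl, sr0, Fin.sum_univ_four]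
lemma refl1 (a b c d : ℤ) : refl 1 ![a, b, c, d] = ![b, a, c, d] := by
  ext l; fin_cases l <;> simp [refl, sr1, Fin.sum_univ_four]
lemma refl2 (a b c d : ℤ) : refl 2 ![a, b, c, d] = ![a, c, b, d] := by
  ext l; fin_cases l <;> simp [refl, sr2, Fin.sum_univ_four]
lemma refl3 (a b c d : ℤ) : refl 3 ![a, b, c, d] = ![a, b, d, c] := by
  ext l; fin_cases l <;> simp [refl, sr3, Fin.sum_univ_four]
lemma refl4 (a b c d : ℤ) : refl 4 ![a, b, c, d] = ![a, b, -d, -c] := by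
  ext l; fin_cases l <;> simp [refl, sr4, Fin.sum_univ_four]

/-- numeric form of `kgen` -/
def kn (r : ℤ × ℤ × ℤ × ℤ) (a b c d : ℤ) : ℤ :=
  if a = r.1 ∧ b = r.2.1 ∧ c = r.2.2.1 ∧ d = r.2.2.2 then -1 else
    if a = -r.1 ∧ b = -r.2.1 ∧ c = -r.2.2.1 ∧ d = -r.2.2.2 then 1 else 0

lemma kg0 (a b c d : ℤ) : kgen 0 ![a, b, c, d] = kn (-1, -1, 0, 0) a b c d := by
  unfold kgen kn
  simp only [sr0, neg_vec, vec_eq]
lemma kg1 (a b c d : ℤ) : kgen 1 ![a, b, c, d] = kn (1, -1, 0, 0) a b c d := by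
  unfold kgen kn
  simp only [sr1, neg_vec, vec_eq]
lemma kg2 (a b c d : ℤ) : kgen 2 ![a, b, c, d] = kn (0, 1, -1, 0) a b c d := by
  unfold kgen kn
  simp only [sr2, neg_vec, vec_eq]
lemma kg3 (a b c d : ℤ) : kgen 3 ![a, b, c, d] = kn (0, 0, 1, -1) a b c d := by
  unfold kgen kn
  simp only [sr3, neg_vec, vec_eq]
lemma kg4 (a b c d : ℤ) : kgen 4 ![a, b, c, d] = kn (0, 0, 1, 1) a b c d := by
  unfold kgen kn
  simp only [sr4, neg_vec, vec_eq]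

/-- numeric evaluation along a word; the head of the list is the last letter -/
def kk : List (Fin 5) → ℤ → ℤ → ℤ → ℤ → ℤ
  | [], _, _, _, _ => 0
  | 0 :: ω, a, b, c, d => kk ω (-b) (-a) c d + kn (-1, -1, 0, 0) a b c d
  | 1 :: ω, a, b, c, d => kk ω b a c d + kn (1, -1, 0, 0) a b c d
  | 2 :: ω, a, b, c, d => kk ω a c b d + kn (0, 1, -1, 0) a b c d
  | 3 :: ω, a, b, c, d => kk ω a b d c + kn (0, 0, 1, -1) a b c d
  | 4 :: ω, a, b, c, d => kk ω a b (-d) (-c) + kn (0, 0, 1, 1) a b c d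

lemma isRoot_vec {a b c d : ℤ} : IsRoot ![a, b, c, d] ↔ a ^ 2 + b ^ 2 + c ^ 2 + d ^ 2 = 2 := by
  unfold IsRoot
  rw [Fin.sum_univ_four]
  rfl

variable {W : Type*} [Group W] {cs : CoxeterSystem affD W} {k : W → (Fin 4 → ℤ) → ℤ}

lemma k_word (hk : IsAlcoveForm cs k) (ω : List (Fin 5)) : ∀ a b c d : ℤ,
    a ^ 2 + b ^ 2 + c ^ 2 + d ^ 2 = 2 →
    k (ω.foldr (fun i w => w * cs.simple i) 1) ![a, b, c, d] = kk ω a b c d := by
  induction ω with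
  | nil =>
    intro a b c d h
    exact hk.one _ (isRoot_vec.2 h)
  | cons i ω ih =>
    intro a b c d h
    show k (ω.foldr (fun i w => w * cs.simple i) 1 * cs.simple i) ![a, b, c, d] = _
    rw [hk.mul _ _ _ (isRoot_vec.2 h)]
    fin_cases i
    · show k _ (refl 0 _) + kgen 0 _ = kk ω (-b) (-a) c d + kn (-1, -1, 0, 0) a b c d
      rw [refl0, kg0, ih _ _ _ _ (by linarith)]
    · show k _ (refl 1 _) + kgen 1 _ = kk ω b a c d + kn (1, -1, 0, 0) a b c d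
      rw [refl1, kg1, ih _ _ _ _ (by linarith)]
    · show k _ (refl 2 _) + kgen 2 _ = kk ω a c b d + kn (0, 1, -1, 0) a b c d
      rw [refl2, kg2, ih _ _ _ _ (by linarith)]
    · show k _ (refl 3 _) + kgen 3 _ = kk ω a b d c + kn (0, 0, 1, -1) a b c d
      rw [refl3, kg3, ih _ _ _ _ (by linarith)]
    · show k _ (refl 4 _) + kgen 4 _ = kk ω a b (-d) (-c) + kn (0, 0, 1, 1) a b c d
      rw [refl4, kg4, ih _ _ _ _ (by linarith)]

/-- the two words, last letter first -/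
def w1 : List (Fin 5) := [2, 3, 1, 0, 2, 0, 1, 3]
def w2 : List (Fin 5) := [2, 3, 1, 0, 2, 0, 1, 3, 4]

lemma check : ∀ a ∈ ([-1, 0, 1] : List ℤ), ∀ b ∈ ([-1, 0, 1] : List ℤ),
    ∀ c ∈ ([-1, 0, 1] : List ℤ), ∀ d ∈ ([-1, 0, 1] : List ℤ),
    a ^ 2 + b ^ 2 + c ^ 2 + d ^ 2 = 2 → (kk w1 a b c d).sign = (kk w2 a b c d).sign := by
  decide

lemma bound {a : ℤ} {r : ℤ} (h : a ^ 2 + r = 2) (hr : 0 ≤ r) : a ∈ ([-1, 0, 1] : List ℤ) := by
  have h1 : -1 ≤ a := by nlinarith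
  have h2 : a ≤ 1 := by nlinarith
  have : a = -1 ∨ a = 0 ∨ a = 1 := by omega
  simpa using this

theorem sameSign (hk : IsAlcoveForm cs k) :
    SameSignType k (w1.foldr (fun i w => w * cs.simple i) 1)
      (w2.foldr (fun i w => w * cs.simple i) 1) := by
  intro α hα
  rw [vec4 α] at hα ⊢
  rw [isRoot_vec] at hα
  rw [k_word hk w1 _ _ _ _ hα, k_word hk w2 _ _ _ _ hα]
  apply check _ _ _ _ _ _ _ _ hα
  · exact bound (r := α 1 ^ 2 + α 2 ^ 2 + α 3 ^ 2) (by linarith) (by positivity)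
  · exact bound (r := α 0 ^ 2 + α 2 ^ 2 + α 3 ^ 2) (by linarith) (by positivity)
  · exact bound (r := α 0 ^ 2 + α 1 ^ 2 + α 3 ^ 2) (by linarith) (by positivity)
  · exact bound (r := α 0 ^ 2 + α 1 ^ 2 + α 2 ^ 2) (by linarith) (by positivity)

end Pool.Agent.Helper703.ST
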