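import Pool.Agent.Helper703.ST.Lower

set_option autoImplicit false

namespace Pool.Agent.Helper703.ST

open LaurentPolynomial Module Pool.Agent.Helper703.KL

lemma nonPos_v {n : ℤ} (hn : n ≤ 0) : NonPos (v n) := fun m hm => by
  rw [T_apply, if_neg (by omega)]

lemma neg_v {n : ℤ} (hn : n < 0) : Neg (v n) := fun m hm => by
  rw [T_apply, if_neg (by omega)]

lemma expand_A (p : A) : p = ∑ n ∈ p.coeff.support, p.coeff n • v n := by
  ext m
  rw [coeff_sum]
  simp only [coeff_zsmul, T_apply]
  by_cases hm : m ∈ p.coeff.support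
  · rw [Finset.sum_eq_single m]
    · simp
    · intro b _ hb
      rw [if_neg hb]; simp
    · intro h; exact absurd hm h
  · rw [Finset.sum_eq_zero]
    · simpa using hm
    · intro x hx
      rw [if_neg (by rintro rfl; exact hm hx)]; simp

lemma nonPos_mul {p q : A} (hp : NonPos p) (hq : NonPos q) : NonPos (p * q) := by
  intro m hm
  rw [expand_A p, Finset.sum_mul, coeff_sum]
  apply Finset.sum_eq_zero
  intro n _
  rw [smul_mul_assoc, coeff_zsmul, coeff_v_mul]
  by_cases hn : 0 < n
  · rw [hp n hn, zero_mul]
  · rw [hq _ (by omega), mul_zero]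

lemma neg_mul_nonPos {p q : A} (hp : Neg p) (hq : NonPos q) : Neg (p * q) := by
  intro m hm
  rw [expand_A p, Finset.sum_mul, coeff_sum]
  apply Finset.sum_eq_zero
  intro n _
  rw [smul_mul_assoc, coeff_zsmul, coeff_v_mul]
  by_cases hn : 0 ≤ n
  · rw [hp n hn, zero_mul]
  · rw [hq _ (by omega), mul_zero]

section
variable {B : Type*} {M : CoxeterMatrix B} {W : Type*} [Group W] (cs : CoxeterSystem M W)
variable {H : Type*} [Ring H] [Algebra A H] (T : Basis W A H)

/-- all coefficients are in `v⁻¹ ℤ[v⁻¹]` and the support is in length `< n` -/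
def Sm (n : ℕ) (h : H) : Prop :=
  (∀ y, Neg ((nb cs T).repr h y)) ∧ (∀ y, (nb cs T).repr h y ≠ 0 → cs.length y < n)

/-- `h` is `T̃_z` plus a small element -/
def Tri (z : W) (h : H) : Prop := Sm cs T (cs.length z) (h - nb cs T z)

variable {cs T}

lemma Sm.zero (n : ℕ) : Sm cs T n 0 := by
  refine ⟨fun y => ?_, fun y hy => ?_⟩
  · rw [map_zero]; exact Neg.zero
  · rw [map_zero] at hy; exact absurd rfl hy

lemma Sm.add {n : ℕ} {h h' : H} (a : Sm cs T n h) (b : Sm cs T n h') : Sm cs T n (h + h') := by
  refine ⟨fun y => ?_, fun y hy => ?_⟩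
  · rw [map_add]; exact (a.1 y).add (b.1 y)
  · rw [map_add, Finsupp.add_apply] at hy
    by_cases h1 : (nb cs T).repr h y = 0
    · rw [h1, zero_add] at hy; exact b.2 y hy
    · exact a.2 y h1

lemma Sm.neg {n : ℕ} {h : H} (a : Sm cs T n h) : Sm cs T n (-h) := by
  refine ⟨fun y => ?_, fun y hy => ?_⟩
  · rw [map_neg]
    intro m hm
    rw [Finsupp.neg_apply, coeff_neg, a.1 y m hm, neg_zero]
  · rw [map_neg, Finsupp.neg_apply] at hy
    exact a.2 y (fun h0 => hy (by rw [h0, neg_zero]))

lemma Sm.sub {n : ℕ} {h h' : H} (a : Sm cs T n h) (b : Sm cs T n h') : Sm cs T n (h - h') := by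
  rw [sub_eq_add_neg]; exact a.add b.neg

lemma Sm.mono {m n : ℕ} (hmn : m ≤ n) {h : H} (a : Sm cs T m h) : Sm cs T n h :=
  ⟨a.1, fun y hy => (a.2 y hy).trans_le hmn⟩

lemma Sm.sum {ι : Type*} (s : Finset ι) (f : ι → H) (n : ℕ) (h : ∀ i ∈ s, Sm cs T n (f i)) :
    Sm cs T n (∑ i ∈ s, f i) := by
  classical
  induction s using Finset.induction_on with
  | empty => rw [Finset.sum_empty]; exact Sm.zero n
  | insert a s ha ih =>
    rw [Finset.sum_insert ha]
    exact (h a (Finset.mem_insert_self _ _)).add
      (ih (fun i hi => h i (Finset.mem_insert_of_mem hi)))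

lemma Tri.coef {z : W} {h : H} (ht : Tri cs T z h) (y : W) :
    NonPos ((nb cs T).repr h y) ∧ ((nb cs T).repr h y ≠ 0 → y = z ∨ cs.length y < cs.length z) := by
  classical
  have h1 := ht.1 y
  have h2 := ht.2 y
  rw [map_sub, Finsupp.sub_apply, Basis.repr_self, Finsupp.single_apply] at h1 h2
  by_cases hz : z = y
  · subst hz
    rw [if_pos rfl] at h1
    refine ⟨?_, fun _ => Or.inl rfl⟩
    have := h1.nonPos.add NonPos.one
    rwa [sub_add_cancel] at this
  · rw [if_neg hz, sub_zero] at h1 h2
    exact ⟨h1.nonPos, fun h => Or.inr (h2 h)⟩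

lemma Tri.smul_sm {z : W} {h : H} (ht : Tri cs T z h) {p : A} (hp : Neg p) {n : ℕ}
    (hn : cs.length z < n) : Sm cs T n (p • h) := by
  refine ⟨fun y => ?_, fun y hy => ?_⟩
  · rw [map_smul, Finsupp.smul_apply, smul_eq_mul]
    exact neg_mul_nonPos hp (ht.coef y).1
  · rw [map_smul, Finsupp.smul_apply, smul_eq_mul] at hy
    rcases (ht.coef y).2 (fun h0 => hy (by rw [h0, mul_zero])) with h1 | h1
    · rw [h1]; exact hn
    · omega

lemma Tri.nb (z : W) : Tri cs T z (nb cs T z) := by
  unfold Tri
  rw [sub_self]
  exact Sm.zero _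

lemma Tri.add_sm {z : W} {h h' : H} (ht : Tri cs T z h) (hs : Sm cs T (cs.length z) h') :
    Tri cs T z (h + h') := by
  unfold Tri
  have : h + h' - KL.nb cs T z = (h - KL.nb cs T z) + h' := by abel
  rw [this]
  exact Sm.add ht hs

variable {bar : H →+* H} {C : Basis W A H}

lemma C_tri (hT : IsHecke cs T) (hb : IsBar cs T bar) (hC : IsKLBasis cs T bar C) (z : W) :
    Tri cs T z (C z) := by
  classical
  refine ⟨fun y => ?_, fun y hy => ?_⟩
  · rw [map_sub, Finsupp.sub_apply, Basis.repr_self, Finsupp.single_apply]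
    by_cases hz : z = y
    · subst hz
      rw [if_pos rfl, (isKL_L hC).diag, sub_self]
      exact Neg.zero
    · rw [if_neg hz, sub_zero]
      exact (isKL_L hC).neg z y (Ne.symm hz)
  · rw [map_sub, Finsupp.sub_apply, Basis.repr_self, Finsupp.single_apply] at hy
    by_cases hz : z = y
    · subst hz
      rw [if_pos rfl, (isKL_L hC).diag, sub_self] at hy
      exact absurd rfl hy
    · rw [if_neg hz, sub_zero] at hy
      exact ((isKL_L hC).supp (klModL hT hb) z y hy).resolve_left (Ne.symm hz)

/-- small elements have small `C`-coefficients -/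
lemma Sm.C_coef (hT : IsHecke cs T) (hb : IsBar cs T bar) (hC : IsKLBasis cs T bar C) (n : ℕ) :
    ∀ h : H, Sm cs T n h → (∀ y, Neg (C.repr h y)) ∧ (∀ y, C.repr h y ≠ 0 → cs.length y < n) := by
  classical
  induction n with
  | zero =>
    intro h hh
    have h0 : h = 0 := by
      apply (nb cs T).repr.map_eq_zero_iff.1
      ext y
      by_contra hcon
      have := hh.2 y (fun h1 => hcon (by rw [h1]; rfl))
      omega
    subst h0
    rw [map_zero]
    exact ⟨fun y => Neg.zero, fun y hy => absurd rfl hy⟩
  | succ n ih =>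
    intro h hh
    set S := (((nb cs T).repr h).support).filter (fun y => cs.length y = n) with hS
    set r : H := ∑ y ∈ S, (nb cs T).repr h y • C y with hr
    have hrr : ∀ y, C.repr r y = if y ∈ S then (nb cs T).repr h y else 0 := by
      intro y
      rw [hr, map_sum, Finsupp.finsetSum_apply]
      have : ∀ x ∈ S, (C.repr ((nb cs T).repr h x • C x)) y =
          if x = y then (nb cs T).repr h x else 0 := by
        intro x _
        rw [map_smul, Finsupp.smul_apply, Basis.repr_self, Finsupp.single_apply, smul_eq_mul,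
          mul_ite, mul_one, mul_zero]
      rw [Finset.sum_congr rfl this, Finset.sum_ite_eq']
    have h1 : Sm cs T n (h - r) := by
      refine ⟨fun y => ?_, fun y hy => ?_⟩
      · rw [map_sub, Finsupp.sub_apply]
        refine (hh.1 y).sub ?_
        rw [hr, map_sum, Finsupp.finsetSum_apply]
        apply Neg.sum
        intro x _
        rw [map_smul, Finsupp.smul_apply, smul_eq_mul]
        exact neg_mul_nonPos (hh.1 x) ((C_tri hT hb hC x).coef y).1
      · by_contra hcon
        push Not at hcon
        apply hy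
        rw [map_sub, Finsupp.sub_apply, sub_eq_zero]
        have h2 : ∀ x ∈ S, (nb cs T).repr ((nb cs T).repr h x • C x) y =
            if x = y then (nb cs T).repr h x else 0 := by
          intro x hx
          rw [map_smul, Finsupp.smul_apply, smul_eq_mul]
          have hxn : cs.length x = n := (Finset.mem_filter.1 hx).2
          by_cases hxy : x = y
          · subst hxy
            rw [if_pos rfl, (isKL_L hC).diag, mul_one]
          · rw [if_neg hxy]
            have : (nb cs T).repr (C x) y = 0 := by
              by_contra h3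
              rcases ((C_tri hT hb hC x).coef y).2 h3 with h4 | h4
              · exact hxy h4.symm
              · omega
            rw [this, mul_zero]
        rw [hr, map_sum, Finsupp.finsetSum_apply, Finset.sum_congr rfl h2, Finset.sum_ite_eq']
        split_ifs with h3
        · rfl
        · by_contra h4
          apply h3
          rw [hS, Finset.mem_filter, Finsupp.mem_support_iff]
          refine ⟨h4, ?_⟩
          have := hh.2 y h4
          omega
    obtain ⟨i1, i2⟩ := ih _ h1
    have e : h = (h - r) + r := by abel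
    refine ⟨fun y => ?_, fun y hy => ?_⟩
    · rw [e, map_add, Finsupp.add_apply, hrr]
      refine (i1 y).add ?_
      split_ifs
      · exact hh.1 y
      · exact Neg.zero
    · rw [e, map_add, Finsupp.add_apply, hrr] at hy
      by_cases h3 : C.repr (h - r) y = 0
      · rw [h3, zero_add] at hy
        split_ifs at hy with h4
        · have := (Finset.mem_filter.1 h4).2
          omega
        · exact absurd rfl hy
      · have := i2 y h3
        omega

lemma C_repr_bar (hb : IsBar cs T bar) (hC : IsKLBasis cs T bar C) (h : H) (y : W) :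
    C.repr (bar h) y = invert (C.repr h y) := by
  classical
  conv_lhs => rw [← C.linearCombination_repr h]
  rw [Finsupp.linearCombination_apply, Finsupp.sum, map_sum, map_sum, Finsupp.finsetSum_apply]
  have : ∀ x ∈ (C.repr h).support, (C.repr (bar (C.repr h x • C x))) y =
      if x = y then (invert (C.repr h x) : A) else 0 := by
    intro x _
    rw [hb.smul, hC.bar_eq, map_smul, Finsupp.smul_apply, Basis.repr_self, Finsupp.single_apply,
      smul_eq_mul, mul_ite, mul_one, mul_zero]
  rw [Finset.sum_congr rfl this, Finset.sum_ite_eq']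
  split_ifs with h1
  · rfl
  · rw [Finsupp.notMem_support_iff.1 h1, map_zero]

end

end Pool.Agent.Helper703.ST
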